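import Pool.Agent.H234R4.DRH.Stmts

/-! Task Conj of the H234-DRH project (MP_77948b_nt). The proof of `LFunction_conj_aux` follows
`Pool.Agent.H370R2.DirGood` of the starting repository. -/

set_option autoImplicit false

open Complex Filter Topology Set

namespace Pool.Agent.H234R4.DRH.TConj

lemma LFunction_conj_aux {q : ℕ} [NeZero q] (χ : DirichletCharacter ℂ q) (s : ℂ) (hs : s ≠ 1) :
    DirichletCharacter.LFunction χ⁻¹ ((starRingEnd ℂ) s) =
      (starRingEnd ℂ) (DirichletCharacter.LFunction χ s) := by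
  have hg_an : AnalyticOnNhd ℂ (fun z ↦ (starRingEnd ℂ)
      (DirichletCharacter.LFunction χ⁻¹ ((starRingEnd ℂ) z))) {1}ᶜ :=
    DifferentiableOn.analyticOnNhd
      (fun z hz ↦ (differentiableAt_conj_conj_iff.mpr <|
        DirichletCharacter.differentiableAt_LFunction _ _ (Or.inl <|
        (map_ne_one_iff _ (starRingEnd ℂ).injective).mpr hz)).differentiableWithinAt)
      isOpen_compl_singleton
  have hf_an : AnalyticOnNhd ℂ (DirichletCharacter.LFunction χ) {1}ᶜ :=
    DifferentiableOn.analyticOnNhd
      (fun z hz ↦ (DirichletCharacter.differentiableAt_LFunction _ _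
        (Or.inl hz)).differentiableWithinAt) isOpen_compl_singleton
  have hgz (z : ℂ) (hz : 1 < z.re) : (starRingEnd ℂ)
      (DirichletCharacter.LFunction χ⁻¹ ((starRingEnd ℂ) z)) = DirichletCharacter.LFunction χ z := by
    rw [DirichletCharacter.LFunction_eq_LSeries _ (by rwa [conj_re]),
      DirichletCharacter.LFunction_eq_LSeries _ hz, LSeries, LSeries, conj_tsum]
    refine tsum_congr fun n ↦ ?_
    rcases eq_or_ne n 0 with rfl | hn
    · simp
    · rw [LSeries.term_of_ne_zero hn, LSeries.term_of_ne_zero hn, map_div₀,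
        ← conj_cpow _ _ (by rw [natCast_arg]; positivity), conj_natCast,
        ← MulChar.star_apply']
      simp
  have heq : EqOn (fun z ↦ (starRingEnd ℂ)
      (DirichletCharacter.LFunction χ⁻¹ ((starRingEnd ℂ) z))) (DirichletCharacter.LFunction χ) {1}ᶜ :=
    hg_an.eqOn_of_preconnected_of_eventuallyEq hf_an
      (isConnected_compl_singleton_of_one_lt_rank (by simp) 1).isPreconnected
      (by norm_num : (2 : ℂ) ∈ _)
      (eventuallyEq_of_mem
        ((isOpen_lt continuous_const continuous_re).mem_nhds (by norm_num)) hgz)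
  simpa using congrArg (starRingEnd ℂ) (heq hs)

theorem LFunction_conj_all {q : ℕ} [NeZero q] {χ : DirichletCharacter ℂ q} (h1 : χ ≠ 1) (s : ℂ) :
    DirichletCharacter.LFunction χ⁻¹ ((starRingEnd ℂ) s) =
      (starRingEnd ℂ) (DirichletCharacter.LFunction χ s) := by
  have h2 : χ⁻¹ ≠ 1 := inv_ne_one.2 h1
  have c1 : Continuous (fun s : ℂ => DirichletCharacter.LFunction χ⁻¹ ((starRingEnd ℂ) s)) :=
    (DirichletCharacter.differentiable_LFunction h2).continuous.comp continuous_conj
  have c2 : Continuous (fun s : ℂ => (starRingEnd ℂ) (DirichletCharacter.LFunction χ s)) :=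
    continuous_conj.comp (DirichletCharacter.differentiable_LFunction h1).continuous
  have hcl := isClosed_eq c1 c2
  have hsub : ({1}ᶜ : Set ℂ) ⊆ {s : ℂ | DirichletCharacter.LFunction χ⁻¹ ((starRingEnd ℂ) s) =
      (starRingEnd ℂ) (DirichletCharacter.LFunction χ s)} := fun z hz => LFunction_conj_aux χ z hz
  have hd : Dense ({1}ᶜ : Set ℂ) := dense_compl_singleton 1
  have := hcl.closure_subset_iff.2 hsub
  rw [hd.closure_eq] at this
  exact this (Set.mem_univ s)

theorem conj_ok : Pool.Agent.H234R4.DRH.TaskConj := by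
  intro N _ χ hχ s
  have h := LFunction_conj_all hχ (starRingEnd ℂ s)
  rw [Complex.conj_conj] at h
  exact h

end Pool.Agent.H234R4.DRH.TConj
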