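import Pool.Agent.H234R4.DRH.Stmts
import Pool.Agent.H814R3.BSD.T_Log

/-! The logarithm of the Euler product of general local data without zeros in `Re s > 1`. -/

set_option autoImplicit false

open Complex Filter Topology Finset

namespace Pool.Agent.H234R4.DRH.TEulerG

open Pool.Agent.H438R3.BSD Pool.Agent.H438R3.BSD.Gen Pool.Agent.H814R3.BSD

variable {LL : ℕ → ℂ → ℂ} {ell : ℕ → ℝ} {A : ℝ}

lemma LL_le (h : Loc LL ell A) (p : ℕ) (s : ℂ) (hs : 1 ≤ s.re) :
    ‖LL p s‖ ≤ (2 * A) * (p : ℝ) ^ (1 / 2 - s.re) := by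
  have hA := h.pos
  by_cases hp : p.Prime
  · have hp0 : 0 < p := hp.pos
    have hpr : (0 : ℝ) < p := by exact_mod_cast hp0
    have hp1 : (1 : ℝ) ≤ p := by exact_mod_cast hp0
    have e : LL p s = Gen.dd LL ell p s - (ell p : ℂ) * (p : ℂ) ^ (1 - s) := by
      unfold Gen.dd; ring
    have h1 := h.dd_le p s hp hs
    have h2 : ‖(ell p : ℂ) * (p : ℂ) ^ (1 - s)‖ ≤ A * (p : ℝ) ^ (1 / 2 - s.re) := by
      rw [norm_mul, Complex.norm_real, Real.norm_eq_abs, Complex.norm_natCast_cpow_of_pos hp0]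
      have h1 := h.ell_le p hp0
      calc |ell p| * (p : ℝ) ^ (1 - s).re ≤
          (A * (p : ℝ) ^ (-(1 / 2) : ℝ)) * (p : ℝ) ^ (1 - s).re :=
            mul_le_mul_of_nonneg_right h1 (by positivity)
        _ = A * ((p : ℝ) ^ (-(1 / 2) : ℝ) * (p : ℝ) ^ (1 - s).re) := by ring
        _ = A * (p : ℝ) ^ (1 / 2 - s.re) := by
            rw [← Real.rpow_add hpr]; congr 2; simp; ring
    have h3 : A * (p : ℝ) ^ (-s.re) ≤ A * (p : ℝ) ^ (1 / 2 - s.re) :=
      mul_le_mul_of_nonneg_left (Real.rpow_le_rpow_of_exponent_le hp1 (by linarith)) hA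
    rw [e]
    refine (norm_sub_le _ _).trans ?_
    linarith
  · rw [h.zeroL p s hp, norm_zero]; positivity

lemma LL_summable (h : Loc LL ell A) {s : ℂ} (hs : 3 / 2 < s.re) :
    Summable (fun p => LL p s) := by
  refine Summable.of_norm_bounded
    ((Real.summable_nat_rpow.2 (by linarith : 1 / 2 - s.re < -1)).mul_left (2 * A)) ?_
  exact fun p => LL_le h p s (by linarith)

lemma LL_le' (h : Loc LL ell A) {t : ℝ} (ht : 3 / 2 ≤ t) (p : ℕ) (s : ℂ) (hs : t ≤ s.re) :
    ‖LL p s‖ ≤ (2 * A) * (p : ℝ) ^ (1 / 2 - t) := by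
  have hA := h.pos
  refine (LL_le h p s (by linarith)).trans ?_
  rcases Nat.eq_zero_or_pos p with h0 | h0
  · rw [h0]
    simp only [Nat.cast_zero]
    rw [Real.zero_rpow (by linarith), Real.zero_rpow (by linarith)]
  · have hp1 : (1 : ℝ) ≤ p := by exact_mod_cast h0
    refine mul_le_mul_of_nonneg_left ?_ (by positivity)
    exact Real.rpow_le_rpow_of_exponent_le hp1 (by linarith)

lemma SS_differentiable (h : Loc LL ell A) :
    DifferentiableOn ℂ (fun s => ∑' p, LL p s) {s | (3 : ℝ) / 2 < s.re} := by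
  intro s0 hs0
  have hs0' : (3 : ℝ) / 2 < s0.re := hs0
  set t := (3 / 2 + s0.re) / 2 with ht
  have ht1 : 3 / 2 < t := by rw [ht]; linarith
  have ht2 : t < s0.re := by rw [ht]; linarith
  have hd : DifferentiableOn ℂ (fun s => ∑' p, LL p s) {s | t < s.re} := by
    refine differentiableOn_tsum_of_summable_norm (u := fun p : ℕ => (2 * A) * (p : ℝ) ^ (1 / 2 - t))
      ((Real.summable_nat_rpow.2 (by linarith : 1 / 2 - t < -1)).mul_left (2 * A)) (fun p => ?_)
      (Complex.isOpen_re_gt t) (fun p s hs => ?_)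
    · refine (h.diff p).mono (fun s (hs : t < s.re) => ?_)
      show 1 < s.re
      linarith
    · have hs' : t < s.re := hs
      exact LL_le' h ht1.le p s hs'.le
  exact (hd.differentiableAt ((Complex.isOpen_re_gt t).mem_nhds ht2)).differentiableWithinAt

lemma exp_SS (h : Loc LL ell A) {F : ℂ → ℂ} {s : ℂ} (hs : 3 / 2 < s.re)
    (hprod : HasProd (fun p : ℕ => exp (LL p s)) (F s)) :
    F s = exp (∑' p, LL p s) :=
  hprod.unique (LL_summable h hs).hasSum.cexp

theorem eulerG (h : TaskLog) : TaskEulerG := by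
  intro LL ell A F hloc hF hprod hne
  have hadd : Differentiable ℂ (fun w : ℂ => 1 + w) := by fun_prop
  have hFd : Differentiable ℂ (fun w : ℂ => F (1 + w)) := hF.comp hadd
  set S : ℂ → ℂ := fun w => ∑' p, LL p (1 + w) with hS
  have hre : ∀ w : ℂ, 1 / 2 < w.re → 3 / 2 < (1 + w).re := by
    intro w hw; simp only [add_re, one_re]; linarith
  have hSsum : ∀ w : ℂ, 1 / 2 < w.re →
      HasSum (fun p : ℕ => LL p (1 + w)) (S w) := by
    intro w hw
    exact (LL_summable hloc (hre w hw)).hasSum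
  have hopen : IsOpen {w : ℂ | (1 : ℝ) / 2 < w.re} := Complex.isOpen_re_gt _
  have hSd : DifferentiableOn ℂ S {w : ℂ | (1 : ℝ) / 2 < w.re} := by
    have h1 := SS_differentiable hloc
    exact h1.comp hadd.differentiableOn (fun w hw => hre w hw)
  have hSe : ∀ w : ℂ, 1 / 2 < w.re → exp (S w) = F (1 + w) := by
    intro w hw
    exact (exp_SS hloc (hre w hw) (hprod (1 + w) (hre w hw))).symm
  obtain ⟨L0, hL0, hL0e⟩ := h (fun w => F (1 + w)) hFd.differentiableOn (by
    intro w hw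
    apply hne
    simp only [add_re, one_re]; linarith)
  have hsub : {w : ℂ | (1 : ℝ) / 2 < w.re} ⊆ {w : ℂ | 0 < w.re} := by
    intro w hw
    have h1 : (1 : ℝ) / 2 < w.re := hw
    show 0 < w.re
    linarith
  have hD : DifferentiableOn ℂ (fun w => L0 w - S w) {w : ℂ | (1 : ℝ) / 2 < w.re} :=
    (hL0.mono hsub).sub hSd
  have hexp : ∀ w : ℂ, 1 / 2 < w.re → exp (L0 w - S w) = 1 := by
    intro w hw
    have hw0 : 0 < w.re := by linarith
    rw [Complex.exp_sub, hL0e w hw0, hSe w hw, div_self]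
    apply hne
    simp only [add_re, one_re]; linarith
  have hconv : Convex ℝ {w : ℂ | (1 : ℝ) / 2 < w.re} := convex_halfSpace_re_gt _
  have hpre : IsPreconnected {w : ℂ | (1 : ℝ) / 2 < w.re} := hconv.isPreconnected
  have hderiv : Set.EqOn (deriv (fun w => L0 w - S w)) 0 {w : ℂ | (1 : ℝ) / 2 < w.re} := by
    intro w hw
    have hd : DifferentiableAt ℂ (fun w => L0 w - S w) w := hD.differentiableAt (hopen.mem_nhds hw)
    have h1 : HasDerivAt (fun w => exp (L0 w - S w))
        (exp (L0 w - S w) * deriv (fun w => L0 w - S w) w) w := hd.hasDerivAt.cexp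
    have h2 : (fun w => exp (L0 w - S w)) =ᶠ[𝓝 w] fun _ => (1 : ℂ) := by
      filter_upwards [hopen.mem_nhds hw] with z hz
      exact hexp z hz
    have h3 : HasDerivAt (fun _ : ℂ => (1 : ℂ))
        (exp (L0 w - S w) * deriv (fun w => L0 w - S w) w) w := h1.congr_of_eventuallyEq h2.symm
    have h4 := h3.unique (hasDerivAt_const w (1 : ℂ))
    rw [hexp w hw, one_mul] at h4
    exact h4
  obtain ⟨c, hc⟩ := hopen.exists_is_const_of_deriv_eq_zero hpre hD hderiv
  have hc1 : exp c = 1 := by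
    have h1 := hexp 1 (by norm_num)
    have h2 := hc 1 (by show (1 : ℝ) / 2 < (1 : ℂ).re; norm_num)
    rw [h2] at h1
    exact h1
  have hLS : ∀ w : ℂ, 1 / 2 < w.re → L0 w - c = S w := by
    intro w hw
    have h2 := hc w hw
    rw [← h2]; ring
  refine ⟨fun w => L0 w - c, hL0.sub_const c, ?_, ?_, ?_⟩
  · intro w hw
    show exp (L0 w - c) = F (1 + w)
    rw [Complex.exp_sub, hc1, div_one, hL0e w hw]
  · intro w hw
    show HasSum _ (L0 w - c)
    rw [hLS w hw]
    exact hSsum w hw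
  · refine ⟨∑' p : ℕ, (2 * A) * (p : ℝ) ^ (1 / 2 - 2 : ℝ), ?_⟩
    intro w hw
    show ‖L0 w - c‖ ≤ _
    rw [hLS w (by linarith)]
    have hs : Summable (fun p : ℕ => (2 * A) * (p : ℝ) ^ (1 / 2 - 2 : ℝ)) :=
      (Real.summable_nat_rpow.2 (by norm_num)).mul_left (2 * A)
    refine tsum_of_norm_bounded hs.hasSum (fun p => ?_)
    refine LL_le' hloc (by norm_num) p (1 + w) ?_
    simp only [add_re, one_re]; linarith

end Pool.Agent.H234R4.DRH.TEulerG

namespace Pool.Agent.H234R4.DRH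

theorem eulerG_ok : TaskEulerG := TEulerG.eulerG Pool.Agent.H814R3.BSD.log_ok

end Pool.Agent.H234R4.DRH
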