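import Pool.Agent.H234R4.DRH.Stmts

set_option autoImplicit false

open Complex Filter Topology Finset MeasureTheory

namespace Pool.Agent.H234R4.DRH.FE54

open Pool.Agent.H234R4.DRH

lemma gamma_ne {N : ℕ} (χ : DirichletCharacter ℂ N) (s : ℂ) (hs : 0 < s.re) :
    χ.gammaFactor s ≠ 0 := by
  rcases χ.even_or_odd with he | ho
  · rw [he.gammaFactor_def]
    exact Complex.Gammaℝ_ne_zero_of_re_pos hs
  · rw [ho.gammaFactor_def]
    apply Complex.Gammaℝ_ne_zero_of_re_pos
    rw [Complex.add_re, Complex.one_re]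
    linarith

lemma zero_iff {N : ℕ} [NeZero N] (χ : DirichletCharacter ℂ N) (s : ℂ) (hs : 0 < s.re) :
    χ.LFunction s = 0 ↔ χ.completedLFunction s = 0 := by
  have hs0 : s ≠ 0 := by
    rintro rfl
    simp at hs
  rw [DirichletCharacter.LFunction_eq_completed_div_gammaFactor χ s (Or.inl hs0), div_eq_zero_iff]
  constructor
  · rintro (h | h)
    · exact h
    · exact absurd h (gamma_ne χ s hs)
  · exact Or.inl

theorem fe_ok (hc : TaskConj) : TaskFE := by
  intro N _ χ hχ h1
  have hinv : (χ⁻¹).IsPrimitive := by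
    rw [DirichletCharacter.isPrimitive_def, DirichletCharacter.conductor_inv]
    exact hχ
  constructor
  · intro h ρ hρ
    rcases lt_trichotomy ρ.re (1 / 2) with hlt | heq | hgt
    · exfalso
      have e1 := DirichletCharacter.IsPrimitive.completedLFunction_one_sub hinv ρ
      rw [inv_inv, hρ, mul_zero] at e1
      have hre : 1 / 2 < (1 - ρ).re := by
        rw [Complex.sub_re, Complex.one_re]; linarith
      have e2 := (zero_iff χ⁻¹ (1 - ρ) (by linarith)).mpr e1
      rw [hc N χ h1 (1 - ρ)] at e2
      have e3 : χ.LFunction ((starRingEnd ℂ) (1 - ρ)) = 0 := by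
        rw [← starRingEnd_self_apply (χ.LFunction ((starRingEnd ℂ) (1 - ρ))), e2, map_zero]
      exact h _ (by rw [Complex.conj_re]; exact hre) e3
    · exact heq
    · exfalso
      exact h ρ hgt ((zero_iff χ ρ (by linarith)).mpr hρ)
  · intro h s hs h0
    have := h s ((zero_iff χ s (by linarith)).mp h0)
    linarith

end Pool.Agent.H234R4.DRH.FE54
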