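import Pool.Agent.H234R4.DRH.Stmts
import Pool.Agent.H379R2.SW2

set_option autoImplicit false

open Complex Filter Topology

namespace Pool.Agent.H234R4.DRH.GrowT

theorem grow_aux {N : ℕ} [NeZero N] {χ : DirichletCharacter ℂ N} (hχ : χ ≠ 1) {s : ℂ}
    (hs : 1 / 2 < s.re) : ‖χ.LFunction s‖ ≤ 13 * (N * (‖s‖ + 2)) := by
  have hN : (1 : ℝ) ≤ N := by exact_mod_cast NeZero.one_le
  have hns := norm_nonneg s
  set η : ℝ := max (1 / 4) (1 - s.re) with hη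
  have h1 : 1 / 4 ≤ η := le_max_left _ _
  have h2 : η < 1 / 2 := max_lt (by norm_num) (by linarith)
  have h3 : 1 - η ≤ s.re := by linarith [le_max_right (1 / 4 : ℝ) (1 - s.re)]
  have hB : 1 ≤ (N : ℝ) * (‖s‖ + 2) := by nlinarith
  have h := Pool.Agent.H379R2.SW.char_norm_le hχ (by linarith : 0 < η) h2 h3
    (le_refl ((N : ℝ) * (‖s‖ + 2)))
  refine h.trans ?_
  have h4 : 9 + 1 / η ≤ 13 := by
    have : 1 / η ≤ 1 / (1 / 4) := one_div_le_one_div_of_le (by norm_num) h1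
    norm_num at this ⊢
    linarith
  have h5 : ((N : ℝ) * (‖s‖ + 2)) ^ (2 * η) ≤ (N : ℝ) * (‖s‖ + 2) := by
    calc ((N : ℝ) * (‖s‖ + 2)) ^ (2 * η) ≤ ((N : ℝ) * (‖s‖ + 2)) ^ (1 : ℝ) :=
          Real.rpow_le_rpow_of_exponent_le hB (by linarith)
      _ = (N : ℝ) * (‖s‖ + 2) := Real.rpow_one _
  have h6 : 0 ≤ ((N : ℝ) * (‖s‖ + 2)) ^ (2 * η) := by positivity
  calc (9 + 1 / η) * ((N : ℝ) * (‖s‖ + 2)) ^ (2 * η)
      ≤ 13 * ((N : ℝ) * (‖s‖ + 2)) ^ (2 * η) := mul_le_mul_of_nonneg_right h4 h6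
    _ ≤ 13 * ((N : ℝ) * (‖s‖ + 2)) := by linarith

theorem grow_ok : Pool.Agent.H234R4.DRH.TaskGrow := by
  intro N _ χ hχ
  have hN : (1 : ℝ) ≤ N := by exact_mod_cast NeZero.one_le
  refine ⟨26 * N, 1, fun s hs => ?_⟩
  have hcont : Continuous χ.LFunction :=
    (DirichletCharacter.differentiable_LFunction hχ).continuous
  have ht : Tendsto (fun n : ℕ => s + (((1 / ((n : ℝ) + 1) : ℝ)) : ℂ)) atTop (𝓝 (s + ((0 : ℝ) : ℂ))) := by
    refine tendsto_const_nhds.add ?_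
    exact (Complex.continuous_ofReal.tendsto _).comp tendsto_one_div_add_atTop_nhds_zero_nat
  rw [ofReal_zero, add_zero] at ht
  have hl : Tendsto (fun n : ℕ => ‖χ.LFunction (s + (((1 / ((n : ℝ) + 1) : ℝ)) : ℂ))‖) atTop
      (𝓝 ‖χ.LFunction s‖) := (hcont.norm.tendsto s).comp ht
  have hr : Tendsto (fun n : ℕ => 13 * ((N : ℝ) * (‖s + (((1 / ((n : ℝ) + 1) : ℝ)) : ℂ)‖ + 2)))
      atTop (𝓝 (13 * ((N : ℝ) * (‖s‖ + 2)))) :=
    ((((continuous_norm.tendsto s).comp ht).add_const 2).const_mul (N : ℝ)).const_mul 13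
  have hle := le_of_tendsto_of_tendsto' hl hr (fun n => grow_aux hχ (by
    rw [add_re, ofReal_re]
    have : 0 < 1 / ((n : ℝ) + 1) := by positivity
    linarith))
  refine hle.trans ?_
  rw [Real.rpow_one]
  have hns := norm_nonneg s
  nlinarith

end Pool.Agent.H234R4.DRH.GrowT
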