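import Pool.Agent.H234R4.DRH.Stmts

set_option autoImplicit false

open Filter Topology

namespace Pool.Agent.H234R4.DRH

/-- derivative of order `m` of `(s - z) ^ m * g` at `z` -/
theorem iteratedDeriv_of_factor (z : ℂ) : ∀ (m : ℕ) (f g : ℂ → ℂ), AnalyticAt ℂ g z →
    (∀ᶠ s in 𝓝 z, f s = (s - z) ^ m * g s) →
    iteratedDeriv m f z = (m.factorial : ℂ) * g z := by
  intro m
  induction m with
  | zero =>
    intro f g hg h
    rw [iteratedDeriv_zero, h.self_of_nhds]
    simp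
  | succ m ih =>
    intro f g hg h
    rw [iteratedDeriv_succ']
    have hg' : AnalyticAt ℂ (deriv g) z := hg.deriv
    have hh : AnalyticAt ℂ (fun s => ((m : ℂ) + 1) * g s + (s - z) * deriv g s) z :=
      (analyticAt_const.mul hg).add ((analyticAt_id.sub analyticAt_const).mul hg')
    have h1 : deriv f =ᶠ[𝓝 z] deriv (fun s => (s - z) ^ (m + 1) * g s) :=
      Filter.EventuallyEq.deriv h
    have h2 : ∀ᶠ s in 𝓝 z, deriv (fun s => (s - z) ^ (m + 1) * g s) s =
        (s - z) ^ m * (((m : ℂ) + 1) * g s + (s - z) * deriv g s) := by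
      filter_upwards [hg.eventually_analyticAt] with s hs
      have d1 : HasDerivAt (fun s : ℂ => (s - z) ^ (m + 1)) (((m + 1 : ℕ) : ℂ) * (s - z) ^ m * 1) s := by
        exact ((hasDerivAt_id' s).sub_const z).fun_pow (m + 1)
      have d2 : HasDerivAt g (deriv g s) s := hs.differentiableAt.hasDerivAt
      rw [(d1.fun_mul d2).deriv]
      push_cast
      ring
    have h3 : ∀ᶠ s in 𝓝 z, deriv f s =
        (s - z) ^ m * (((m : ℂ) + 1) * g s + (s - z) * deriv g s) := by
      filter_upwards [h1, h2] with s hs1 hs2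
      rw [hs1, hs2]
    rw [ih (deriv f) _ hh h3, Nat.factorial_succ]
    push_cast
    ring

/-- `TaskLead` -/
theorem lead_ok : Pool.Agent.H234R4.DRH.TaskLead := by
  intro f z m hf hord
  obtain ⟨g, hg, hgz, hfg⟩ := (hf.analyticOrderAt_eq_natCast).1 hord
  have hfg' : ∀ᶠ s in 𝓝 z, f s = (s - z) ^ m * g s := by
    filter_upwards [hfg] with s hs
    rw [hs, smul_eq_mul]
  have hder := iteratedDeriv_of_factor z m f g hg hfg'
  have hfac : (m.factorial : ℂ) ≠ 0 := by exact_mod_cast Nat.factorial_ne_zero m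
  refine ⟨by rw [hder]; exact mul_ne_zero hfac hgz, ?_⟩
  have hval : ‖iteratedDeriv m f z‖ / m.factorial = ‖g z‖ := by
    rw [hder, norm_mul, Complex.norm_natCast]
    have : (m.factorial : ℝ) ≠ 0 := by exact_mod_cast Nat.factorial_ne_zero m
    field_simp
  rw [hval]
  have hz : Tendsto (fun w : ℂ => z + w) (𝓝[≠] 0) (𝓝 z) := by
    have : Tendsto (fun w : ℂ => z + w) (𝓝 0) (𝓝 (z + 0)) := tendsto_const_nhds.add tendsto_id
    rw [add_zero] at this
    exact this.mono_left nhdsWithin_le_nhds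
  have hgt : Tendsto (fun w : ℂ => g (z + w)) (𝓝[≠] 0) (𝓝 (g z)) :=
    hg.continuousAt.tendsto.comp hz
  have hlog : Tendsto (fun w : ℂ => Real.log ‖g (z + w)‖) (𝓝[≠] 0) (𝓝 (Real.log ‖g z‖)) :=
    (Real.continuousAt_log (norm_ne_zero_iff.2 hgz)).tendsto.comp hgt.norm
  refine hlog.congr' ?_
  have hne : ∀ᶠ w : ℂ in 𝓝[≠] 0, g (z + w) ≠ 0 := hgt.eventually_ne hgz
  filter_upwards [hz.eventually hfg', hne, self_mem_nhdsWithin] with w hw1 hw2 hw3
  have hw0 : ‖w‖ ≠ 0 := norm_ne_zero_iff.2 hw3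
  rw [hw1, add_sub_cancel_left, norm_mul, norm_pow, Real.log_mul (pow_ne_zero _ hw0)
    (norm_ne_zero_iff.2 hw2), Real.log_pow]
  ring

end Pool.Agent.H234R4.DRH
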