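import Pool.Agent.H814R3.BSD.Stmts
import Pool.Agent.H438R3.BSD.Gen3

/-! Partial Euler products at `1/2` of Dirichlet `L`-functions in the logarithmic mean: statements of
the pieces. -/

set_option autoImplicit false

open Complex Filter Topology Finset MeasureTheory

namespace Pool.Agent.H234R4.DRH

open Pool.Agent.H438R3.BSD Pool.Agent.H438R3.BSD.Gen

/-- EulerG: `TaskEuler` of `H814R3/BSD` for general local data (adapt `H814R3/BSD/T_Euler.lean`;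
use `Loc.dd_le`, `Loc.ell_le`, `Loc.diff`: `LL p s = dd LL ell p s - ell p * p ^ (1 - s)`). -/
def TaskEulerG : Prop := ∀ (LL : ℕ → ℂ → ℂ) (ell : ℕ → ℝ) (A : ℝ) (F : ℂ → ℂ), Loc LL ell A →
  Differentiable ℂ F →
  (∀ s : ℂ, 3 / 2 < s.re → HasProd (fun p : ℕ => exp (LL p s)) (F s)) →
  (∀ s : ℂ, 1 < s.re → F s ≠ 0) →
  ∃ L : ℂ → ℂ, DifferentiableOn ℂ L {w | 0 < w.re} ∧
    (∀ w : ℂ, 0 < w.re → exp (L w) = F (1 + w)) ∧
    (∀ w : ℂ, 1 / 2 < w.re → HasSum (fun p : ℕ => LL p (1 + w)) (L w)) ∧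
    ∃ B0 : ℝ, ∀ w : ℂ, 1 ≤ w.re → ‖L w‖ ≤ B0

/-- the coefficients of `log (L(s - 1/2, χ) L(s - 1/2, χ⁻¹))` -/
noncomputable def cc {N : ℕ} (χ : DirichletCharacter ℂ N) (p m : ℕ) : ℝ :=
  2 * ((χ (p : ZMod N)) ^ m).re * (p : ℝ) ^ ((m : ℝ) / 2)

/-- `L(s - 1/2, χ) L(s - 1/2, χ⁻¹)` -/
noncomputable def FF {N : ℕ} [NeZero N] (χ : DirichletCharacter ℂ N) (s : ℂ) : ℂ :=
  χ.LFunction (s - 1 / 2) * χ⁻¹.LFunction (s - 1 / 2)

/-- Grow: polynomial growth of `L(s,χ)` in `Re s ≥ 1/2` (partial summation: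
`L(s,χ) = s ∫_1^∞ S(x) x^(-s-1) dx` with `|S| ≤ N`, or anything in the library) -/
def TaskGrow : Prop := ∀ (N : ℕ) [NeZero N] (χ : DirichletCharacter ℂ N), χ ≠ 1 →
  ∃ C K : ℝ, ∀ s : ℂ, 1 / 2 ≤ s.re → ‖χ.LFunction s‖ ≤ C * (1 + ‖s‖) ^ K

open Classical in
/-- LimDD: the limit of the sum of the local error terms. -/
def TaskLimDD : Prop := ∀ (N : ℕ) [NeZero N] (χ : DirichletCharacter ℂ N),
  Tendsto (fun w : ℂ => (∑' p, Gen.dd (LLc Nat.Prime (cc χ)) (ellc Nat.Prime (cc χ)) p (1 + w)).re)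
    (𝓝[{w : ℂ | 0 < w.re}] 0) (𝓝 (if χ ^ 2 = 1 then -Real.log 2 else 0))

/-- FE: the zeros of the completed function -/
def TaskFE : Prop := ∀ (N : ℕ) [NeZero N] (χ : DirichletCharacter ℂ N), χ.IsPrimitive → χ ≠ 1 →
  ((∀ s : ℂ, 1 / 2 < s.re → χ.LFunction s ≠ 0) ↔
    ∀ ρ : ℂ, χ.completedLFunction ρ = 0 → ρ.re = 1 / 2)

/-- Conj: `L(s, χ⁻¹)` is the complex conjugate of `L(s̄, χ)` -/
def TaskConj : Prop := ∀ (N : ℕ) [NeZero N] (χ : DirichletCharacter ℂ N), χ ≠ 1 → ∀ s : ℂ,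
  χ⁻¹.LFunction s = starRingEnd ℂ (χ.LFunction (starRingEnd ℂ s))

/-- Lead: the leading coefficient -/
def TaskLead : Prop := ∀ (f : ℂ → ℂ) (z : ℂ) (m : ℕ), AnalyticAt ℂ f z →
  analyticOrderAt f z = m →
  iteratedDeriv m f z ≠ 0 ∧
  Tendsto (fun w : ℂ => Real.log ‖f (z + w)‖ - m * Real.log ‖w‖) (𝓝[≠] 0)
    (𝓝 (Real.log (‖iteratedDeriv m f z‖ / m.factorial)))

end Pool.Agent.H234R4.DRH
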