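import Mathlib
import Pool.Agent.H234R4.DRH.Stmts

set_option autoImplicit false

/-! The limit of the sum of the local error terms. -/

open Complex Filter Topology Finset

namespace Pool.Agent.H234R4.DRH.LimDDT

open Pool.Agent.H438R3.BSD Pool.Agent.H438R3.BSD.Gen Pool.Agent.H234R4.DRH

/-- the filter of the statement -/
noncomputable abbrev FW : Filter ℂ := 𝓝[{w : ℂ | 0 < w.re}] 0

theorem FW_pos : ∀ᶠ w in FW, 0 < w.re := self_mem_nhdsWithin

theorem FW_nhds : Tendsto (fun w : ℂ => w) FW (𝓝 0) := tendsto_nhdsWithin_of_tendsto_nhds tendsto_id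

theorem FW_two : Tendsto (fun w : ℂ => 2 * w) FW FW := by
  rw [tendsto_nhdsWithin_iff]
  refine ⟨?_, ?_⟩
  · have := FW_nhds.const_mul (2 : ℂ)
    simpa using this
  · filter_upwards [FW_pos] with w hw
    simp only [Complex.mul_re, Complex.re_ofNat, Complex.im_ofNat]
    linarith

/-! ### Prime sums -/

/-- the term of the prime sum -/
noncomputable def zz {N : ℕ} (ψ : DirichletCharacter ℂ N) (s : ℂ) (p : Nat.Primes) : ℂ :=
  ψ ((p : ℕ) : ZMod N) * ((p : ℕ) : ℂ) ^ (-s)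

/-- the rest of the logarithm of the Euler factor -/
noncomputable def rr {N : ℕ} (ψ : DirichletCharacter ℂ N) (s : ℂ) (p : Nat.Primes) : ℂ :=
  -log (1 - zz ψ s p) - zz ψ s p

theorem p_two (p : Nat.Primes) : (2 : ℝ) ≤ ((p : ℕ) : ℝ) := by exact_mod_cast p.2.two_le

theorem zz_norm {N : ℕ} (ψ : DirichletCharacter ℂ N) (s : ℂ) (p : Nat.Primes) :
    ‖zz ψ s p‖ ≤ ((p : ℕ) : ℝ) ^ (-s.re) := by
  unfold zz
  rw [norm_mul, Complex.norm_natCast_cpow_of_pos p.2.pos, Complex.neg_re]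
  exact mul_le_of_le_one_left (by positivity) (DirichletCharacter.norm_le_one ψ _)

theorem zz_norm1 {N : ℕ} (ψ : DirichletCharacter ℂ N) (s : ℂ) (hs : 1 ≤ s.re) (p : Nat.Primes) :
    ‖zz ψ s p‖ ≤ ((p : ℕ) : ℝ) ^ (-1 : ℝ) := by
  refine (zz_norm ψ s p).trans ?_
  have := p_two p
  exact Real.rpow_le_rpow_of_exponent_le (by linarith) (by linarith)

theorem zz_half {N : ℕ} (ψ : DirichletCharacter ℂ N) (s : ℂ) (hs : 1 ≤ s.re) (p : Nat.Primes) :
    ‖zz ψ s p‖ ≤ 1 / 2 := by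
  refine (zz_norm1 ψ s hs p).trans ?_
  rw [Real.rpow_neg_one]
  have := p_two p
  rw [one_div]
  exact inv_anti₀ (by norm_num) this

theorem rr_norm {N : ℕ} (ψ : DirichletCharacter ℂ N) (s : ℂ) (hs : 1 ≤ s.re) (p : Nat.Primes) :
    ‖rr ψ s p‖ ≤ ((p : ℕ) : ℝ) ^ (-2 : ℝ) := by
  have h1 := zz_half ψ s hs p
  have h2 := zz_norm1 ψ s hs p
  have h3 : ‖-zz ψ s p‖ < 1 := by rw [norm_neg]; linarith
  have h4 := Complex.norm_log_one_add_sub_self_le h3
  rw [norm_neg] at h4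
  have e : rr ψ s p = -(log (1 + -zz ψ s p) - -zz ψ s p) := by
    unfold rr
    rw [← sub_eq_add_neg]
    ring
  rw [e, norm_neg]
  refine h4.trans ?_
  have h5 : (1 - ‖zz ψ s p‖)⁻¹ ≤ 2 := by
    rw [inv_le_comm₀ (by linarith) (by norm_num)]
    norm_num
    linarith
  have h6 : (((p : ℕ) : ℝ) ^ (-1 : ℝ)) ^ 2 = ((p : ℕ) : ℝ) ^ (-2 : ℝ) := by
    rw [← Real.rpow_natCast, ← Real.rpow_mul (by positivity)]
    norm_num
  rw [← h6]
  calc ‖zz ψ s p‖ ^ 2 * (1 - ‖zz ψ s p‖)⁻¹ / 2 ≤ ‖zz ψ s p‖ ^ 2 * 2 / 2 := by gcongr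
    _ = ‖zz ψ s p‖ ^ 2 := by ring
    _ ≤ _ := by gcongr

theorem zz_summable {N : ℕ} (ψ : DirichletCharacter ℂ N) (s : ℂ) (hs : 1 < s.re) :
    Summable (zz ψ s) :=
  Summable.of_norm_bounded (Nat.Primes.summable_rpow.mpr (by linarith : -s.re < -1))
    (fun p => zz_norm ψ s p)

theorem two_summable : Summable (fun p : Nat.Primes => ((p : ℕ) : ℝ) ^ (-2 : ℝ)) :=
  Nat.Primes.summable_rpow.mpr (by norm_num)

theorem rr_summable {N : ℕ} (ψ : DirichletCharacter ℂ N) (s : ℂ) (hs : 1 ≤ s.re) :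
    Summable (rr ψ s) :=
  Summable.of_norm_bounded two_summable (fun p => rr_norm ψ s hs p)

theorem logL {N : ℕ} [NeZero N] (ψ : DirichletCharacter ℂ N) (s : ℂ) (hs : 1 < s.re) :
    ψ.LFunction s ≠ 0 ∧
    (∑' p, zz ψ s p).re = Real.log ‖ψ.LFunction s‖ - (∑' p, rr ψ s p).re := by
  have h1 := DirichletCharacter.LSeries_eulerProduct_exp_log ψ hs
  rw [← DirichletCharacter.LFunction_eq_LSeries ψ hs] at h1
  have h2 : ∑' p : Nat.Primes, -log (1 - ψ ((p : ℕ) : ZMod N) * ((p : ℕ) : ℂ) ^ (-s)) =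
      (∑' p, zz ψ s p) + ∑' p, rr ψ s p := by
    rw [← (zz_summable ψ s hs).tsum_add (rr_summable ψ s hs.le)]
    refine tsum_congr (fun p => ?_)
    unfold rr zz
    ring
  rw [h2] at h1
  refine ⟨by rw [← h1]; exact exp_ne_zero _, ?_⟩
  rw [← h1, Complex.norm_exp, Real.log_exp, Complex.add_re]
  ring

theorem rr_tendsto {N : ℕ} (ψ : DirichletCharacter ℂ N) :
    Tendsto (fun w : ℂ => ∑' p, rr ψ (1 + w) p) FW (𝓝 (∑' p, rr ψ 1 p)) := by
  refine tendsto_tsum_of_dominated_convergence two_summable (fun p => ?_) ?_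
  · have hc : ContinuousAt (fun w : ℂ => rr ψ (1 + w) p) 0 := by
      have hz : ContinuousAt (fun w : ℂ => zz ψ (1 + w) p) 0 := by
        unfold zz
        have hp : ((p : ℕ) : ℂ) ≠ 0 := by exact_mod_cast p.2.ne_zero
        have h1 : ContinuousAt (fun w : ℂ => ((p : ℕ) : ℂ) ^ (-(1 + w))) 0 :=
          ContinuousAt.const_cpow (by fun_prop) (Or.inl hp)
        exact h1.const_mul _
      unfold rr
      refine ContinuousAt.sub (ContinuousAt.neg (ContinuousAt.clog (by fun_prop) ?_)) hz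
      have h3 : ‖-zz ψ (1 + 0) p‖ < 1 := by
        rw [norm_neg]
        exact lt_of_le_of_lt (zz_half ψ (1 + 0) (by simp) p) (by norm_num)
      have h4 := Complex.mem_slitPlane_of_norm_lt_one h3
      rwa [← sub_eq_add_neg] at h4
    have h5 := hc.tendsto
    rw [add_zero] at h5
    exact tendsto_nhdsWithin_of_tendsto_nhds h5
  · filter_upwards [FW_pos] with w hw p
    exact rr_norm ψ _ (by simp; linarith) p

theorem logL_ne {N : ℕ} [NeZero N] (ψ : DirichletCharacter ℂ N) (hψ : ψ ≠ 1) :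
    Tendsto (fun w : ℂ => Real.log ‖ψ.LFunction (1 + w)‖) FW (𝓝 (Real.log ‖ψ.LFunction 1‖)) := by
  have h1 : ContinuousAt (fun w : ℂ => Real.log ‖ψ.LFunction (1 + w)‖) 0 := by
    have h2 : Continuous (fun w : ℂ => ψ.LFunction (1 + w)) :=
      (DirichletCharacter.differentiable_LFunction hψ).continuous.comp (by fun_prop)
    refine ContinuousAt.log h2.norm.continuousAt ?_
    rw [add_zero, norm_ne_zero_iff]
    exact DirichletCharacter.LFunction_apply_one_ne_zero hψ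
  have h3 := h1.tendsto
  rw [add_zero] at h3
  exact tendsto_nhdsWithin_of_tendsto_nhds h3

theorem logL_one (N : ℕ) [NeZero N] :
    ∃ c : ℝ, Tendsto (fun w : ℂ => Real.log ‖(1 : DirichletCharacter ℂ N).LFunction (1 + w)‖ +
      Real.log ‖w‖) FW (𝓝 c) := by
  have h1 := DirichletCharacter.LFunctionTrivChar_residue_one (N := N)
  have hne : (∏ p ∈ N.primeFactors, (1 - ((p : ℕ) : ℂ)⁻¹)) ≠ 0 := by
    rw [Finset.prod_ne_zero_iff]
    intro p hp
    have hp1 := (Nat.prime_of_mem_primeFactors hp).ne_one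
    have hp0 := (Nat.prime_of_mem_primeFactors hp).ne_zero
    rw [sub_ne_zero]
    intro h
    have h' : ((p : ℕ) : ℂ) = 1 := by
      have := congrArg (fun x => x⁻¹) h
      simpa using this.symm
    exact hp1 (by exact_mod_cast h')
  have h2 : Tendsto (fun w : ℂ => 1 + w) FW (𝓝[≠] 1) := by
    rw [tendsto_nhdsWithin_iff]
    refine ⟨?_, ?_⟩
    · have := FW_nhds.const_add (1 : ℂ)
      simpa using this
    · filter_upwards [FW_pos] with w hw
      intro h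
      have h' : w = 0 := by
        have : (1 : ℂ) + w = 1 := h
        simpa using this
      rw [h'] at hw
      simp at hw
  have h3 := h1.comp h2
  have h4 := (h3.norm).log (by rwa [norm_ne_zero_iff])
  refine ⟨_, h4.congr' ?_⟩
  filter_upwards [FW_pos] with w hw
  have hw0 : w ≠ 0 := by
    rintro rfl
    simp at hw
  have hL := (logL (1 : DirichletCharacter ℂ N) (1 + w) (by simp; linarith)).1
  simp only [Function.comp_apply]
  rw [add_sub_cancel_left, norm_mul, Real.log_mul (norm_ne_zero_iff.mpr hw0)]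
  · rw [add_comm]
  · rw [norm_ne_zero_iff]
    exact hL

open Classical in
theorem logL_diff {N : ℕ} [NeZero N] (ψ : DirichletCharacter ℂ N) :
    Tendsto (fun w : ℂ => Real.log ‖ψ.LFunction (1 + 2 * w)‖ - Real.log ‖ψ.LFunction (1 + w)‖) FW
      (𝓝 (if ψ = 1 then -Real.log 2 else 0)) := by
  split_ifs with h
  · subst h
    obtain ⟨c, hc⟩ := logL_one N
    have h1 := ((hc.comp FW_two).sub hc).sub_const (Real.log 2)
    rw [sub_self, zero_sub] at h1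
    refine h1.congr' ?_
    filter_upwards [FW_pos] with w hw
    have hw0 : w ≠ 0 := by
      rintro rfl
      simp at hw
    simp only [Function.comp_apply]
    rw [norm_mul, Real.log_mul (by simp) (norm_ne_zero_iff.mpr hw0)]
    simp only [Complex.norm_ofNat]
    ring
  · have h1 := ((logL_ne ψ h).comp FW_two).sub (logL_ne ψ h)
    rw [sub_self] at h1
    exact h1

open Classical in
theorem zz_diff {N : ℕ} [NeZero N] (ψ : DirichletCharacter ℂ N) :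
    Tendsto (fun w : ℂ => (∑' p, zz ψ (1 + 2 * w) p).re - (∑' p, zz ψ (1 + w) p).re) FW
      (𝓝 (if ψ = 1 then -Real.log 2 else 0)) := by
  have h1 : Tendsto (fun w : ℂ => (∑' p, rr ψ (1 + w) p).re) FW (𝓝 (∑' p, rr ψ 1 p).re) :=
    (Complex.continuous_re.tendsto _).comp (rr_tendsto ψ)
  have h2 := (logL_diff ψ).sub ((h1.comp FW_two).sub h1)
  rw [sub_self, sub_zero] at h2
  refine h2.congr' ?_
  filter_upwards [FW_pos] with w hw
  have e1 := (logL ψ (1 + w) (by simp; linarith)).2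
  have e2 := (logL ψ (1 + 2 * w) (by simp; linarith)).2
  simp only [Function.comp_apply]
  rw [e1, e2]
  ring

/-! ### The local terms -/

/-- the terms of `dd` -/
noncomputable def tt {N : ℕ} (χ : DirichletCharacter ℂ N) (p m : ℕ) (s : ℂ) : ℂ :=
  (cc χ p (m + 1) : ℂ) / (m + 1 : ℂ) *
      ((p : ℂ) ^ (-((m + 1 : ℂ) * s)) - (p : ℂ) ^ (-(m + 1 : ℂ)) * (p : ℂ) ^ (1 - s))

theorem cc_le {N : ℕ} (χ : DirichletCharacter ℂ N) (p : ℕ) (_ : p.Prime) (m : ℕ) (_ : 1 ≤ m) :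
    |cc χ p m| ≤ 2 * (p : ℝ) ^ ((m : ℝ) / 2) := by
  unfold cc
  rw [abs_mul, abs_mul, abs_of_nonneg (by norm_num : (0 : ℝ) ≤ 2),
    abs_of_nonneg (by positivity : (0 : ℝ) ≤ (p : ℝ) ^ ((m : ℝ) / 2))]
  have h1 : |((χ (p : ZMod N)) ^ m).re| ≤ 1 := by
    refine (Complex.abs_re_le_norm _).trans ?_
    rw [norm_pow]
    exact pow_le_one₀ (norm_nonneg _) (DirichletCharacter.norm_le_one χ _)
  have h2 : (0 : ℝ) ≤ (p : ℝ) ^ ((m : ℝ) / 2) := by positivity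
  nlinarith

theorem tt_le {N : ℕ} (χ : DirichletCharacter ℂ N) {p : ℕ} (hp : p.Prime) (m : ℕ) (s : ℂ)
    (hs : 1 ≤ s.re) :
    ‖tt χ p (m + 2) s‖ ≤ 2 * (p : ℝ) ^ (-(3 / 2) : ℝ) * ((p : ℝ) ^ (-(1 / 2) : ℝ)) ^ m := by
  have hp0 : (0 : ℝ) < p := by exact_mod_cast hp.pos
  have hp1 : (1 : ℝ) ≤ p := by exact_mod_cast hp.one_le
  have h1 := norm_term2 (good := Nat.Prime) (c := cc χ) (fun _ h => h) (by norm_num : (0 : ℝ) ≤ 2)
    (fun p hp m hm => cc_le χ p hp m hm) hp (m + 1) s hs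
  have e : (p : ℝ) ^ (-(3 / 2) : ℝ) = (p : ℝ) ^ (-1 : ℝ) * (p : ℝ) ^ (-(1 / 2) : ℝ) := by
    rw [← Real.rpow_add hp0]
    norm_num
  have h2 : (p : ℝ) ^ (-s.re) ≤ (p : ℝ) ^ (-1 : ℝ) :=
    Real.rpow_le_rpow_of_exponent_le hp1 (by linarith)
  calc ‖tt χ p (m + 2) s‖ ≤ 2 * (p : ℝ) ^ (-s.re) * ((p : ℝ) ^ (-(1 / 2) : ℝ)) ^ (m + 1) := h1
    _ ≤ 2 * (p : ℝ) ^ (-1 : ℝ) * ((p : ℝ) ^ (-(1 / 2) : ℝ)) ^ (m + 1) := by gcongr
    _ = _ := by
      rw [e, pow_succ]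
      ring

theorem tt_geom {p : ℕ} (hp : p.Prime) :
    HasSum (fun m : ℕ => 2 * (p : ℝ) ^ (-(3 / 2) : ℝ) * ((p : ℝ) ^ (-(1 / 2) : ℝ)) ^ m)
      (2 * (p : ℝ) ^ (-(3 / 2) : ℝ) * (1 - (p : ℝ) ^ (-(1 / 2) : ℝ))⁻¹) :=
  (geom (good := Nat.Prime) (fun _ h => h) hp).1.mul_left _

theorem ee_le {N : ℕ} (χ : DirichletCharacter ℂ N) {p : ℕ} (hp : p.Prime) (s : ℂ)
    (hs : 1 ≤ s.re) :
    ‖∑' m, tt χ p (m + 2) s‖ ≤ 8 * (p : ℝ) ^ (-(3 / 2) : ℝ) := by
  refine (tsum_of_norm_bounded (tt_geom hp) (fun m => tt_le χ hp m s hs)).trans ?_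
  have h1 := (geom (good := Nat.Prime) (fun _ h => h) hp).2
  have h2 : (0 : ℝ) ≤ (p : ℝ) ^ (-(3 / 2) : ℝ) := by positivity
  nlinarith

theorem tt_tendsto {N : ℕ} (χ : DirichletCharacter ℂ N) {p : ℕ} (hp : p.Prime) (m : ℕ) :
    Tendsto (fun w : ℂ => tt χ p m (1 + w)) FW (𝓝 0) := by
  have hp0 : (p : ℂ) ≠ 0 := by exact_mod_cast hp.ne_zero
  have h0 : ContinuousAt (fun w : ℂ => tt χ p m (1 + w)) 0 := by
    unfold tt
    have h1 : ContinuousAt (fun w : ℂ => (p : ℂ) ^ (-((m + 1 : ℂ) * (1 + w)))) 0 :=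
      ContinuousAt.const_cpow (by fun_prop) (Or.inl hp0)
    have h2 : ContinuousAt (fun w : ℂ => (p : ℂ) ^ (1 - (1 + w))) 0 :=
      ContinuousAt.const_cpow (by fun_prop) (Or.inl hp0)
    exact (h1.sub (h2.const_mul _)).const_mul _
  have h3 := h0.tendsto
  have h4 : tt χ p m (1 + 0) = 0 := by
    unfold tt
    rw [add_zero, sub_self, Complex.cpow_zero, mul_one, mul_one, sub_self, mul_zero]
  rw [h4] at h3
  exact tendsto_nhdsWithin_of_tendsto_nhds h3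

theorem ee_tendsto {N : ℕ} (χ : DirichletCharacter ℂ N) {p : ℕ} (hp : p.Prime) :
    Tendsto (fun w : ℂ => ∑' m, tt χ p (m + 2) (1 + w)) FW (𝓝 0) := by
  have h := tendsto_tsum_of_dominated_convergence (𝓕 := FW)
    (f := fun w m => tt χ p (m + 2) (1 + w)) (g := fun _ => 0) (tt_geom hp).summable
    (fun m => tt_tendsto χ hp (m + 2)) (by
      filter_upwards [FW_pos] with w hw m
      exact tt_le χ hp m _ (by simp; linarith))
  rw [tsum_zero] at h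
  exact h

theorem three_summable : Summable (fun p : Nat.Primes => 8 * ((p : ℕ) : ℝ) ^ (-(3 / 2) : ℝ)) :=
  (Nat.Primes.summable_rpow.mpr (by norm_num)).mul_left _

theorem eee_tendsto {N : ℕ} (χ : DirichletCharacter ℂ N) :
    Tendsto (fun w : ℂ => ∑' p : Nat.Primes, ∑' m, tt χ p (m + 2) (1 + w)) FW (𝓝 0) := by
  have h := tendsto_tsum_of_dominated_convergence (𝓕 := FW)
    (f := fun w (p : Nat.Primes) => ∑' m, tt χ p (m + 2) (1 + w)) (g := fun _ => 0)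
    three_summable (fun p => ee_tendsto χ p.2) (by
      filter_upwards [FW_pos] with w hw p
      exact ee_le χ p.2 _ (by simp; linarith))
  rw [tsum_zero] at h
  exact h

theorem eee_summable {N : ℕ} (χ : DirichletCharacter ℂ N) (s : ℂ) (hs : 1 ≤ s.re) :
    Summable (fun p : Nat.Primes => ∑' m, tt χ p (m + 2) s) :=
  Summable.of_norm_bounded three_summable (fun p => ee_le χ p.2 s hs)

theorem dd_split {N : ℕ} (χ : DirichletCharacter ℂ N) {p : ℕ} (hp : p.Prime) (s : ℂ)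
    (hs : 1 ≤ s.re) :
    Gen.dd (LLc Nat.Prime (cc χ)) (ellc Nat.Prime (cc χ)) p s =
      tt χ p 1 s + ∑' m, tt χ p (m + 2) s := by
  obtain ⟨h1, h2⟩ := dd_eq_tsum (good := Nat.Prime) (c := cc χ) (fun _ h => h)
    (by norm_num : (0 : ℝ) ≤ 2) (fun p hp m hm => cc_le χ p hp m hm) hp s hs
  have h1' : Summable (fun m => tt χ p m s) := h1
  have h2' : Gen.dd (LLc Nat.Prime (cc χ)) (ellc Nat.Prime (cc χ)) p s = ∑' m, tt χ p m s := h2
  have hnc : (p : ℂ) ≠ 0 := by exact_mod_cast hp.ne_zero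
  have h3 : Summable (fun m => tt χ p (m + 1) s) := (summable_nat_add_iff 1).2 h1'
  rw [h2', h1'.tsum_eq_zero_add, h3.tsum_eq_zero_add]
  have e0 : tt χ p 0 s = 0 := by
    unfold tt
    have : (p : ℂ) ^ (-((((0 : ℕ) : ℂ) + 1) * s)) =
        (p : ℂ) ^ (-(((0 : ℕ) : ℂ) + 1)) * (p : ℂ) ^ (1 - s) := by
      rw [← Complex.cpow_add _ _ hnc]
      congr 1
      push_cast
      ring
    rw [this, sub_self, mul_zero]
  rw [e0, zero_add]

theorem tt_one {N : ℕ} [NeZero N] (χ : DirichletCharacter ℂ N) (p : Nat.Primes) (w : ℂ) :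
    tt χ p 1 (1 + w) = ((zz (χ ^ 2) (1 + 2 * w) p + zz (χ ^ 2)⁻¹ (1 + 2 * w) p) -
      (zz (χ ^ 2) (1 + w) p + zz (χ ^ 2)⁻¹ (1 + w) p)) / 2 := by
  have hnc : ((p : ℕ) : ℂ) ≠ 0 := by exact_mod_cast p.2.ne_zero
  have h1 : (χ ^ 2) ((p : ℕ) : ZMod N) = χ ((p : ℕ) : ZMod N) ^ 2 :=
    MulChar.pow_apply' χ two_ne_zero _
  have h2 : (χ ^ 2)⁻¹ ((p : ℕ) : ZMod N) = starRingEnd ℂ (χ ((p : ℕ) : ZMod N) ^ 2) := by
    rw [← MulChar.star_eq_inv, MulChar.star_apply, h1]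
    rfl
  have h3 : (cc χ p (1 + 1) : ℂ) = (χ ((p : ℕ) : ZMod N) ^ 2 +
      starRingEnd ℂ (χ ((p : ℕ) : ZMod N) ^ 2)) * ((p : ℕ) : ℂ) := by
    rw [Complex.add_conj]
    unfold cc
    push_cast
    norm_num
  unfold tt zz
  rw [h1, h2, h3]
  generalize χ ((p : ℕ) : ZMod N) ^ 2 = a
  have e1 : ((p : ℕ) : ℂ) ^ (-(1 + 2 * w)) = ((p : ℕ) : ℂ) *
      ((p : ℕ) : ℂ) ^ (-((((1 : ℕ) : ℂ) + 1) * (1 + w))) := by
    nth_rewrite 2 [← Complex.cpow_one ((p : ℕ) : ℂ)]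
    rw [← Complex.cpow_add _ _ hnc]
    congr 1
    push_cast
    ring
  have e2 : ((p : ℕ) : ℂ) ^ (-(1 + w)) = ((p : ℕ) : ℂ) *
      (((p : ℕ) : ℂ) ^ (-(((1 : ℕ) : ℂ) + 1)) * ((p : ℕ) : ℂ) ^ (1 - (1 + w))) := by
    nth_rewrite 2 [← Complex.cpow_one ((p : ℕ) : ℂ)]
    rw [← Complex.cpow_add _ _ hnc, ← Complex.cpow_add _ _ hnc]
    congr 1
    push_cast
    ring
  rw [e1, e2]
  push_cast
  ring

theorem tsum_eq {N : ℕ} [NeZero N] (χ : DirichletCharacter ℂ N) (w : ℂ) (hw : 0 < w.re) :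
    ∑' p, Gen.dd (LLc Nat.Prime (cc χ)) (ellc Nat.Prime (cc χ)) p (1 + w) =
      (((∑' p, zz (χ ^ 2) (1 + 2 * w) p) + ∑' p, zz (χ ^ 2)⁻¹ (1 + 2 * w) p) -
        ((∑' p, zz (χ ^ 2) (1 + w) p) + ∑' p, zz (χ ^ 2)⁻¹ (1 + w) p)) / 2 +
      ∑' p : Nat.Primes, ∑' m, tt χ p (m + 2) (1 + w) := by
  have hs1 : (1 : ℝ) < ((1 : ℂ) + w).re := by simp; linarith
  have hs2 : (1 : ℝ) < ((1 : ℂ) + 2 * w).re := by simp; linarith
  have hsupp : Function.support (fun p : ℕ => Gen.dd (LLc Nat.Prime (cc χ))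
      (ellc Nat.Prime (cc χ)) p (1 + w)) ⊆ {p | Nat.Prime p} := by
    intro p hp
    by_contra hcon
    have hcon' : ¬ Nat.Prime p := hcon
    apply hp
    change Gen.dd _ _ _ _ = 0
    unfold Gen.dd LLc ellc
    rw [if_neg hcon', if_neg hcon']
    simp
  rw [← tsum_subtype_eq_of_support_subset hsupp]
  have e : ∑' p : ({p | Nat.Prime p} : Set ℕ), Gen.dd (LLc Nat.Prime (cc χ))
      (ellc Nat.Prime (cc χ)) p (1 + w) = ∑' p : Nat.Primes,
      (((zz (χ ^ 2) (1 + 2 * w) p + zz (χ ^ 2)⁻¹ (1 + 2 * w) p) -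
      (zz (χ ^ 2) (1 + w) p + zz (χ ^ 2)⁻¹ (1 + w) p)) / 2 + ∑' m, tt χ p (m + 2) (1 + w)) := by
    refine tsum_congr (fun p : Nat.Primes => ?_)
    rw [← tt_one]
    exact dd_split χ p.2 _ hs1.le
  rw [e]
  have a1 := zz_summable (χ ^ 2) _ hs2
  have a2 := zz_summable (χ ^ 2)⁻¹ _ hs2
  have a3 := zz_summable (χ ^ 2) _ hs1
  have a4 := zz_summable (χ ^ 2)⁻¹ _ hs1
  rw [(((a1.add a2).sub (a3.add a4)).div_const 2).tsum_add (eee_summable χ _ hs1.le),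
    tsum_div_const, (a1.add a2).tsum_sub (a3.add a4), a1.tsum_add a2, a3.tsum_add a4]

theorem limDD_ok : Pool.Agent.H234R4.DRH.TaskLimDD := by
  classical
  intro N _ χ
  have h1 := zz_diff (χ ^ 2)
  have h2 := zz_diff (χ ^ 2)⁻¹
  have h3 : Tendsto (fun w : ℂ => (∑' p : Nat.Primes, ∑' m, tt χ p (m + 2) (1 + w)).re) FW
      (𝓝 0) := by
    have := (Complex.continuous_re.tendsto _).comp (eee_tendsto χ)
    rw [Complex.zero_re] at this
    exact this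
  have h4 := ((h1.add h2).div_const 2).add h3
  have hh : ∀ z : ℂ, (z / 2).re = z.re / 2 := by
    intro z
    simp
  have hfin : ∀ L : ℝ, ((if χ ^ 2 = 1 then -Real.log 2 else 0) +
      (if (χ ^ 2)⁻¹ = 1 then -Real.log 2 else 0)) / 2 + 0 = L →
      Tendsto (fun w : ℂ => (∑' p, Gen.dd (LLc Nat.Prime (cc χ)) (ellc Nat.Prime (cc χ)) p
        (1 + w)).re) FW (𝓝 L) := by
    intro L hL
    have h5 : Tendsto _ FW (𝓝 L) := hL ▸ h4
    refine h5.congr' ?_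
    filter_upwards [FW_pos] with w hw
    rw [tsum_eq χ w hw, Complex.add_re, hh]
    simp only [Complex.sub_re, Complex.add_re]
    ring
  by_cases hχ : χ ^ 2 = 1
  · have hχ' : (χ ^ 2)⁻¹ = 1 := by rw [inv_eq_one]; exact hχ
    rw [if_pos hχ]
    refine hfin _ ?_
    rw [if_pos hχ, if_pos hχ']
    ring
  · have hχ' : ¬ (χ ^ 2)⁻¹ = 1 := by rw [inv_eq_one]; exact hχ
    rw [if_neg hχ]
    refine hfin _ ?_
    rw [if_neg hχ, if_neg hχ']
    ring

end Pool.Agent.H234R4.DRH.LimDDT
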