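import Pool.Agent.H234R4.DRH.Fin2
import Pool.Agent.H234R4.DRH.T_EulerG
import Pool.Agent.H234R4.DRH.T_Grow
import Pool.Agent.H234R4.DRH.T_LimDD
import Pool.Agent.H234R4.DRH.T_FE
import Pool.Agent.H234R4.DRH.T_Conj
import Pool.Agent.H234R4.DRH.T_Lead
import Pool.Agent.H814R3.BSD.T_Kap
import Pool.Agent.H814R3.BSD.T_Inv
import Pool.Agent.H814R3.BSD.T_Shift
import Pool.Agent.H814R3.BSD.T_Perron
import Pool.Agent.H814R3.BSD.T_BC
import Pool.Agent.H814R3.BSD.T_Pois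
import Pool.Agent.H814R3.BSD.T_Z
import Pool.Agent.H814R3.BSD.T_Z0
import Pool.Agent.H814R3.BSD.T_Lim
import Pool.Agent.H814R3.BSD.T_Avg
import Pool.Agent.H814R3.BSD.T_Avg2

/-! All pieces together. -/

set_option autoImplicit false

open Complex Filter Topology Finset

namespace Pool.Agent.H234R4.DRH

open Pool.Agent.H438R3.BSD Pool.Agent.H438R3.BSD.Gen Pool.Agent.H814R3.BSD

variable {N : ℕ} [NeZero N] (χ : DirichletCharacter ℂ N)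

open Classical in
theorem all (h1 : χ ≠ 1) :
    ∃ m : ℕ, analyticOrderAt χ.LFunction (1 / 2) = m ∧
      (∀ κ : ℝ, (∃ C : ℝ, ∀ᶠ x : ℕ in atTop, C ≤ LMD χ κ x) ↔
        ((∀ s : ℂ, 1 / 2 < s.re → χ.LFunction s ≠ 0) ∧ (m : ℝ) ≤ κ)) ∧
      ((∀ s : ℂ, 1 / 2 < s.re → χ.LFunction s ≠ 0) →
        Tendsto (fun x : ℕ => LMD χ m x) atTop (𝓝 (
          Real.log (‖iteratedDeriv m χ.LFunction (1 / 2)‖ / m.factorial) -
          m * Real.eulerMascheroniConstant + if χ ^ 2 = 1 then Real.log 2 / 2 else 0))) :=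
  final χ (TPerron.perron_ok TKap.kap_ok (TInv.inv_ok TKap.kap_ok) TShift.shift_ok) TBC.bc_ok
    TPois.pois_ok taskZ TZ0.Z0_ok (TLim.lim_ok TKap.kap_ok (TInv.inv_ok TKap.kap_ok)) taskAvg taskAvg2
    eulerG_ok GrowT.grow_ok LimDDT.limDD_ok TConj.conj_ok lead_ok h1

lemma LM_le_of_gt (h1 : χ ≠ 1) {m : ℕ} (hm : analyticOrderAt χ.LFunction (1 / 2) = m)
    (hnz : ∀ s : ℂ, 1 / 2 < s.re → χ.LFunction s ≠ 0) {κ : ℝ} (hκ : (m : ℝ) < κ) (C : ℝ) :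
    ∃ᶠ x : ℕ in atTop, C < LMD χ κ x := by
  obtain ⟨M, hM, -, hB⟩ := Gen.main (locDir χ) (FF_diff χ h1) (fun s hs => prodDir χ s hs)
    (lE (ellc Nat.Prime (cc χ))) 0 (fun n => by simp)
  have hM2 : M = 2 * m := by
    obtain ⟨-, h3⟩ := lead_ok (FF χ) 1 M ((FF_diff χ h1).analyticAt 1) hM
    exact order_unique h3 (leadFF χ TConj.conj_ok lead_ok h1 m hm)
  have hreal : ∀ σ : ℝ, 1 < σ → FF χ σ ≠ 0 := by
    intro σ hσ
    unfold FF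
    refine mul_ne_zero (hnz _ (by simp; linarith)) ?_
    rw [TConj.conj_ok N χ h1]
    refine (map_ne_zero (starRingEnd ℂ)).2 (hnz _ ?_)
    rw [Complex.conj_re]
    simp; linarith
  have h3 := (hB hreal (2 * κ) (Or.inl (by rw [hM2]; push_cast; linarith)) (-2 * C)).1
  refine h3.mono fun x hx => ?_
  rw [LM_eq]
  linarith

open Classical in
/-- The main theorem. -/
theorem main (h1 : χ ≠ 1) :
    ∃ m : ℕ, analyticOrderAt χ.LFunction (1 / 2) = m ∧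
      (∀ κ : ℝ, (∃ C : ℝ, ∀ᶠ x : ℕ in atTop, C ≤ LMD χ κ x) ↔
        ((∀ s : ℂ, 1 / 2 < s.re → χ.LFunction s ≠ 0) ∧ (m : ℝ) ≤ κ)) ∧
      (∀ κ : ℝ, (∃ l : ℝ, Tendsto (fun x : ℕ => LMD χ κ x) atTop (𝓝 l)) ↔
        ((∀ s : ℂ, 1 / 2 < s.re → χ.LFunction s ≠ 0) ∧ κ = m)) ∧
      ((∀ s : ℂ, 1 / 2 < s.re → χ.LFunction s ≠ 0) →
        Tendsto (fun x : ℕ => LMD χ m x) atTop (𝓝 (
          Real.log (‖iteratedDeriv m χ.LFunction (1 / 2)‖ / m.factorial) -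
          m * Real.eulerMascheroniConstant + if χ ^ 2 = 1 then Real.log 2 / 2 else 0))) ∧
      (χ.IsPrimitive → ((∀ s : ℂ, 1 / 2 < s.re → χ.LFunction s ≠ 0) ↔
        ∀ ρ : ℂ, χ.completedLFunction ρ = 0 → ρ.re = 1 / 2)) := by
  obtain ⟨m, hm, hA, hB⟩ := all χ h1
  refine ⟨m, hm, hA, fun κ => ⟨?_, ?_⟩, hB, fun hp => FE54.fe_ok TConj.conj_ok N χ hp h1⟩
  · rintro ⟨l, hl⟩
    obtain ⟨hnz, hκ⟩ := (hA κ).1 ⟨l - 1, by
      filter_upwards [hl.eventually (lt_mem_nhds (show l - 1 < l by linarith))] with x hx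
      exact hx.le⟩
    refine ⟨hnz, ?_⟩
    by_contra hne
    have hlt : (m : ℝ) < κ := lt_of_le_of_ne hκ (fun h => hne h.symm)
    have h3 := LM_le_of_gt χ h1 hm hnz hlt (l + 1)
    have h4 := hl.eventually (gt_mem_nhds (show l < l + 1 by linarith))
    obtain ⟨x, hx1, hx2⟩ := (h3.and_eventually h4).exists
    linarith
  · rintro ⟨hnz, hκ⟩
    rw [hκ]
    exact ⟨_, hB hnz⟩

end Pool.Agent.H234R4.DRH
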