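import Pool.Agent.H234R4.DRH.Stmts
import Pool.Agent.H814R3.BSD.T_DD

/-! The converse direction in the logarithmic mean, for general local data. -/

set_option autoImplicit false

open Complex Filter Topology Finset MeasureTheory

namespace Pool.Agent.H234R4.DRH

open Pool.Agent.H438R3.BSD Pool.Agent.H438R3.BSD.Gen Pool.Agent.H814R3.BSD

variable {LL : ℕ → ℂ → ℂ} {ell : ℕ → ℝ} {A : ℝ}

/-- the coefficients -/
noncomputable def av (ell : ℕ → ℝ) (M : ℕ) (n : ℕ) : ℝ := ell n - M * zz n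

lemma zz_zero : zz 0 = 0 := by unfold zz; simp

lemma zz_le (n : ℕ) (hn : 1 ≤ n) : |zz n| ≤ 2 * (n : ℝ) ^ (-(1 / 2) : ℝ) := by
  have hn1 : (1 : ℝ) ≤ n := by exact_mod_cast hn
  have hn0 : (0 : ℝ) < n := by linarith
  unfold zz
  split_ifs with h
  · have h2 : (2 : ℝ) ≤ n := by exact_mod_cast h
    have hl : (1 / 2 : ℝ) ≤ Real.log n := by
      have h3 := Real.log_le_log (by norm_num) h2
      have h4 := Real.log_two_gt_d9
      linarith
    rw [abs_of_nonneg (by positivity)]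
    have h5 : 1 / ((n : ℝ) * Real.log n) ≤ 2 * (n : ℝ) ^ (-(1 : ℝ)) := by
      rw [Real.rpow_neg_one, div_le_iff₀ (by positivity)]
      have : 2 * (n : ℝ)⁻¹ * (n * Real.log n) = 2 * Real.log n := by
        field_simp
      rw [this]; linarith
    have h6 : (n : ℝ) ^ (-(1 : ℝ)) ≤ (n : ℝ) ^ (-(1 / 2) : ℝ) :=
      Real.rpow_le_rpow_of_exponent_le hn1 (by norm_num)
    linarith
  · simp only [abs_zero]; positivity

lemma av_zero (h : Loc LL ell A) (M : ℕ) : av ell M 0 = 0 := by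
  unfold av
  rw [h.zeroE 0 Nat.not_prime_zero, zz_zero]; simp

lemma av_le (h : Loc LL ell A) (M : ℕ) (n : ℕ) (hn : 1 ≤ n) :
    |av ell M n| ≤ (A + 2 * M) * (n : ℝ) ^ (-(1 / 2) : ℝ) := by
  unfold av
  have h1 := h.ell_le n hn
  have h2 := zz_le n hn
  calc |ell n - M * zz n| ≤ |ell n| + |(M : ℝ) * zz n| := abs_sub _ _
    _ ≤ A * (n : ℝ) ^ (-(1 / 2) : ℝ) + M * (2 * (n : ℝ) ^ (-(1 / 2) : ℝ)) := by
        refine add_le_add h1 ?_
        rw [abs_mul, Nat.abs_cast]
        exact mul_le_mul_of_nonneg_left h2 (by positivity)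
    _ = _ := by ring

lemma av_summable (h : Loc LL ell A) (M : ℕ) : Summable (fun n : ℕ => |av ell M n| / n) := by
  have h1 : Summable (fun n : ℕ => (A + 2 * M) * ((n : ℝ)) ^ (-(3 / 2) : ℝ)) :=
    (Real.summable_nat_rpow.2 (by norm_num)).mul_left _
  refine Summable.of_nonneg_of_le (fun n => by positivity) (fun n => ?_) h1
  rcases Nat.eq_zero_or_pos n with h0 | h0
  · rw [h0]
    have := h.pos
    simp
  · have hn0 : (0 : ℝ) < n := by exact_mod_cast h0
    have h2 := av_le h M n h0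
    calc |av ell M n| / n ≤ (A + 2 * M) * (n : ℝ) ^ (-(1 / 2) : ℝ) / n := by gcongr
      _ = (A + 2 * M) * (n : ℝ) ^ (-(3 / 2) : ℝ) := by
          rw [mul_div_assoc]
          congr 1
          have : (n : ℝ) ^ (-(3 / 2) : ℝ) = (n : ℝ) ^ (-(1 / 2) : ℝ) * (n : ℝ) ^ (-(1 : ℝ)) := by
            rw [← Real.rpow_add hn0]; norm_num
          rw [this, Real.rpow_neg_one]; rfl

/-- the generating function -/
noncomputable def HH (LL : ℕ → ℂ → ℂ) (ell : ℕ → ℝ) (L : ℂ → ℂ) (M : ℕ) (w : ℂ) : ℂ :=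
  -L w + ∑' p, Gen.dd LL ell p (1 + w) - M * ZZ w

lemma DDw_diff (h : Loc LL ell A) :
    DifferentiableOn ℂ (fun w : ℂ => ∑' p, Gen.dd LL ell p (1 + w)) {w | 0 < w.re} := by
  have h1 := Gen.DD_differentiable h
  refine h1.comp (g := fun s => ∑' p, Gen.dd LL ell p s) (f := fun w : ℂ => 1 + w) (by fun_prop) ?_
  intro w hw
  simp only [Set.mem_ofPred_eq, Complex.add_re, Complex.one_re] at hw ⊢
  linarith

lemma HH_diff (h : Loc LL ell A) (hZ : TaskZ) {L : ℂ → ℂ} (hL : DifferentiableOn ℂ L {w | 0 < w.re})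
    (M : ℕ) : DifferentiableOn ℂ (HH LL ell L M) {w | 0 < w.re} := by
  unfold HH
  exact (hL.neg.add (DDw_diff h)).sub (hZ.1.const_mul _)

lemma DD_le (h : Loc LL ell A) {w : ℂ} (hw : 0 < w.re) :
    ‖∑' p, Gen.dd LL ell p (1 + w)‖ ≤ A * Pool.Agent.H341R2.lam w.re := by
  have hs1 := (lam_hasSum hw).mul_left A
  refine tsum_of_norm_bounded hs1 (fun p => ?_)
  by_cases hp : p.Prime
  · rw [if_pos hp]
    have := h.dd_le p (1 + w) hp (by simp; linarith)
    simpa using this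
  · rw [if_neg hp, Gen.dd_zero h hp, norm_zero]
    simp

lemma lam_le : ∃ C : ℝ, 0 ≤ C ∧ ∀ σ : ℝ, 0 < σ → σ ≤ 1 →
    Pool.Agent.H341R2.lam σ ≤ C + |Real.log σ| := by
  obtain ⟨C, hC0, hC⟩ := Pool.Agent.H814R3.BSD.TDD.lam_diff
  have hl := Pool.Agent.H814R3.BSD.TDD.lam_nonneg 1
  refine ⟨C + Real.log 2 + Pool.Agent.H341R2.lam 1, ?_, fun σ h0 h1 => ?_⟩
  · have := Real.log_nonneg (x := 2) (by norm_num); linarith
  · have h2 := hC σ 1 h0 (by norm_num)
    have h3 := Pool.Agent.H814R3.BSD.TDD.lam_anti (ε := 1) (δ := σ + 1) (by norm_num) (by linarith)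
    have h4 : Real.log (1 + 1 / σ) ≤ Real.log 2 + |Real.log σ| := by
      have h5 : 1 + 1 / σ ≤ 2 * (1 / σ) := by
        have : 1 ≤ 1 / σ := by rw [le_div_iff₀ h0]; linarith
        linarith
      have h6 := Real.log_le_log (by positivity) h5
      rw [Real.log_mul (by norm_num) (by positivity), one_div, Real.log_inv] at h6
      have h7 := neg_le_abs (Real.log σ)
      rw [one_div]
      linarith
    linarith

/-- `HH` is the Dirichlet series of `av` -/
lemma HH_eq (h : Loc LL ell A) (hZ : TaskZ) {L : ℂ → ℂ}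
    (hsum : ∀ w : ℂ, 1 / 2 < w.re → HasSum (fun p : ℕ => LL p (1 + w)) (L w)) (M : ℕ) (w : ℂ)
    (hw : 1 ≤ w.re) : HH LL ell L M w = LSeries (fun n => (av ell M n : ℂ)) w := by
  have h1 := (Gen.dd_summable h (s := 1 + w) (by simp; linarith)).hasSum
  have h2 := hsum w (by linarith)
  have h3 := h1.sub h2
  have e : (fun p : ℕ => Gen.dd LL ell p (1 + w) - LL p (1 + w)) =
      LSeries.term (fun n => (ell n : ℂ)) w := by
    funext p
    unfold Gen.dd
    rcases Nat.eq_zero_or_pos p with hp | hp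
    · rw [hp]
      have : ell 0 = 0 := h.zeroE 0 Nat.not_prime_zero
      simp [this]
    · rw [LSeries.term_of_ne_zero (by omega)]
      have hpc : (p : ℂ) ≠ 0 := by exact_mod_cast (by omega : p ≠ 0)
      have e1 : (1 : ℂ) - (1 + w) = -w := by ring
      rw [e1, Complex.cpow_neg]
      ring
  rw [e] at h3
  have h4 : HasSum (LSeries.term (fun n => (zz n : ℂ)) w) (ZZ w) := (hZ.2.1 w (by linarith)).hasSum
  have h5 := h3.sub (h4.mul_left (M : ℂ))
  have e2 : (fun n : ℕ => LSeries.term (fun n => (ell n : ℂ)) w n -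
      (M : ℂ) * LSeries.term (fun n => (zz n : ℂ)) w n) = LSeries.term (fun n => (av ell M n : ℂ)) w := by
    funext n
    rcases Nat.eq_zero_or_pos n with hn | hn
    · rw [hn]; simp
    · rw [LSeries.term_of_ne_zero (by omega), LSeries.term_of_ne_zero (by omega),
        LSeries.term_of_ne_zero (by omega)]
      unfold av
      push_cast
      ring
  rw [e2] at h5
  unfold LSeries
  rw [h5.tsum_eq]
  unfold HH
  ring

end Pool.Agent.H234R4.DRH
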