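import Pool.Agent.H234R4.DRH.Conv

/-! The limit in the explicit formula. -/

set_option autoImplicit false

open Complex Filter Topology Finset MeasureTheory

namespace Pool.Agent.H234R4.DRH

open Pool.Agent.H438R3.BSD Pool.Agent.H438R3.BSD.Gen Pool.Agent.H814R3.BSD

variable {LL : ℕ → ℂ → ℂ} {ell : ℕ → ℝ} {A : ℝ}

lemma re_L {F L : ℂ → ℂ} (hexp : ∀ w : ℂ, 0 < w.re → exp (L w) = F (1 + w)) {w : ℂ}
    (hw : 0 < w.re) : (L w).re = Real.log ‖F (1 + w)‖ := by
  rw [← hexp w hw, Complex.norm_exp, Real.log_exp]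

lemma grow_L {F L : ℂ → ℂ} (hexp : ∀ w : ℂ, 0 < w.re → exp (L w) = F (1 + w))
    (hgrow : ∃ C K : ℝ, ∀ s : ℂ, 1 ≤ s.re → ‖F s‖ ≤ C * (1 + ‖s‖) ^ K) :
    ∃ A' : ℝ, ∀ w : ℂ, 0 < w.re → (L w).re ≤ A' * (1 + Real.log (1 + ‖w‖)) := by
  obtain ⟨C, K, hCK⟩ := hgrow
  refine ⟨Real.log (|C| + 1) + |K| * Real.log 2 + |K|, fun w hw => ?_⟩
  have h1 := hCK (1 + w) (by simp; linarith)
  have hb1 : (1 : ℝ) ≤ 1 + ‖1 + w‖ := by have := norm_nonneg (1 + w); linarith
  have hb2 : 1 + ‖1 + w‖ ≤ 2 * (1 + ‖w‖) := by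
    have := norm_add_le (1 : ℂ) w
    rw [norm_one] at this
    have := norm_nonneg w
    linarith
  have h2 : (1 + ‖1 + w‖) ^ K ≤ (2 * (1 + ‖w‖)) ^ |K| :=
    (Real.rpow_le_rpow_of_exponent_le hb1 (le_abs_self K)).trans
      (Real.rpow_le_rpow (by linarith) hb2 (abs_nonneg K))
  have hw0 := norm_nonneg w
  have h3 : ‖F (1 + w)‖ ≤ (|C| + 1) * (2 * (1 + ‖w‖)) ^ |K| := by
    refine h1.trans ?_
    calc C * (1 + ‖1 + w‖) ^ K ≤ (|C| + 1) * (1 + ‖1 + w‖) ^ K := by
          refine mul_le_mul_of_nonneg_right ?_ (by positivity)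
          have := le_abs_self C; linarith
      _ ≤ _ := mul_le_mul_of_nonneg_left h2 (by positivity)
  have h4 : 0 < ‖F (1 + w)‖ := by
    rw [← hexp w hw]
    exact norm_pos_iff.2 (Complex.exp_ne_zero _)
  have h5 := Real.log_le_log h4 h3
  rw [← re_L hexp hw, Real.log_mul (by positivity) (by positivity), Real.log_rpow (by positivity),
    Real.log_mul (by norm_num) (by positivity)] at h5
  have h6 : 0 ≤ Real.log (1 + ‖w‖) := Real.log_nonneg (by linarith)
  have h7 : 0 ≤ Real.log (|C| + 1) := Real.log_nonneg (by have := abs_nonneg C; linarith)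
  have h8 : 0 ≤ Real.log 2 := Real.log_nonneg (by norm_num)
  have h9 := abs_nonneg K
  have h10 : 0 ≤ |K| * Real.log 2 := by positivity
  nlinarith [mul_nonneg h7 h6, mul_nonneg h10 h6]

lemma HH_re {F L : ℂ → ℂ} (hexp : ∀ w : ℂ, 0 < w.re → exp (L w) = F (1 + w)) (M : ℕ) {w : ℂ}
    (hw : 0 < w.re) : (HH LL ell L M w).re =
      -(Real.log ‖F (1 + w)‖ - M * Real.log ‖w‖) + (∑' p, Gen.dd LL ell p (1 + w)).re -
        M * ((ZZ w).re + Real.log ‖w‖) := by
  have h1 : ((M : ℂ) * ZZ w).re = M * (ZZ w).re := by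
    rw [show (M : ℂ) = ((M : ℝ) : ℂ) by push_cast; rfl, Complex.re_ofReal_mul]
  unfold HH
  rw [Complex.sub_re, Complex.add_re, Complex.neg_re, re_L hexp hw, h1]
  ring

theorem perron_lim (hP : TaskPerron) (hBC : TaskBC) (hPois : TaskPois) (hZ : TaskZ)
    (hLim : TaskLim) (h : Loc LL ell A) {F L : ℂ → ℂ}
    (hL : DifferentiableOn ℂ L {w | 0 < w.re})
    (hexp : ∀ w : ℂ, 0 < w.re → exp (L w) = F (1 + w))
    (hsum : ∀ w : ℂ, 1 / 2 < w.re → HasSum (fun p : ℕ => LL p (1 + w)) (L w))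
    (hB0 : ∃ B0 : ℝ, ∀ w : ℂ, 1 ≤ w.re → ‖L w‖ ≤ B0)
    (hgrow : ∃ C K : ℝ, ∀ s : ℂ, 1 ≤ s.re → ‖F s‖ ≤ C * (1 + ‖s‖) ^ K)
    (M : ℕ) (c0 d0 cz : ℝ)
    (hlead : Tendsto (fun w : ℂ => Real.log ‖F (1 + w)‖ - M * Real.log ‖w‖) (𝓝[≠] 0) (𝓝 c0))
    (hd : Tendsto (fun w : ℂ => (∑' p, Gen.dd LL ell p (1 + w)).re) (𝓝[{w : ℂ | 0 < w.re}] 0) (𝓝 d0))
    (hz : ∀ τ : ℝ, Tendsto (fun U : ℝ => (ZZ ((1 + τ * I) / U)).re + Real.log ‖((1 + τ * I) / U : ℂ)‖)
      atTop (𝓝 cz))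
    (hzb : ∃ C : ℝ, ∀ w : ℂ, 0 < w.re → ‖w‖ ≤ 1 → |(ZZ w).re + Real.log ‖w‖| ≤ C) :
    Tendsto (fun U : ℝ => ∑ k ∈ Finset.Icc 1 ⌊Real.exp U⌋₊, av ell M k * (1 - Real.log k / U)) atTop
      (𝓝 (-c0 + d0 - M * cz)) := by
  have hgL := grow_L hexp hgrow
  obtain ⟨CZ, hCZ⟩ := hZ.2.2
  have hA0 := h.pos
  have hM0 : (0 : ℝ) ≤ M := by positivity
  have hCZ0 : 0 ≤ CZ := by
    have h1 := hCZ 1 (by simp)
    simp only [Complex.one_re, Real.log_one, abs_zero, add_zero, mul_one] at h1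
    exact (norm_nonneg _).trans h1
  -- growth for the explicit formula
  have hgrowH : ∀ σ : ℝ, 0 < σ → ∃ B : ℝ, ∀ w : ℂ, σ ≤ w.re → w.re ≤ 1 →
      ‖HH LL ell L M w‖ ≤ B * (1 + |w.im|) ^ (1 / 2 : ℝ) := by
    intro σ hσ
    obtain ⟨B1, hB1⟩ := hBC L hL hB0 hgL σ hσ
    refine ⟨B1 + A * Pool.Agent.H341R2.lam σ + M * (CZ * (1 + |Real.log σ|)), fun w h1 h2 => ?_⟩
    have hw : 0 < w.re := by linarith
    have h3 := hB1 w h1
    have h4 : ‖∑' p, Gen.dd LL ell p (1 + w)‖ ≤ A * Pool.Agent.H341R2.lam σ :=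
      (DD_le h hw).trans (mul_le_mul_of_nonneg_left (TDD.lam_anti hσ h1) hA0)
    have h5 : ‖ZZ w‖ ≤ CZ * (1 + |Real.log σ|) := by
      refine (hCZ w hw).trans (mul_le_mul_of_nonneg_left ?_ hCZ0)
      have h6 : Real.log w.re ≤ 0 := Real.log_nonpos hw.le h2
      have h7 : Real.log σ ≤ Real.log w.re := Real.log_le_log hσ h1
      rw [abs_of_nonpos h6, abs_of_nonpos (by linarith)]
      linarith
    have h8 : 1 ≤ (1 + |w.im|) ^ (1 / 2 : ℝ) :=
      Real.one_le_rpow (by have := abs_nonneg w.im; linarith) (by norm_num)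
    have h9 : 0 ≤ A * Pool.Agent.H341R2.lam σ := mul_nonneg hA0 (TDD.lam_nonneg σ)
    have h10 : 0 ≤ (M : ℝ) * (CZ * (1 + |Real.log σ|)) := by positivity
    have h11 : ‖(M : ℂ) * ZZ w‖ ≤ M * (CZ * (1 + |Real.log σ|)) := by
      rw [norm_mul, Complex.norm_natCast]
      exact mul_le_mul_of_nonneg_left h5 hM0
    unfold HH
    calc ‖-L w + ∑' p, Gen.dd LL ell p (1 + w) - M * ZZ w‖
        ≤ ‖-L w‖ + ‖∑' p, Gen.dd LL ell p (1 + w)‖ + ‖(M : ℂ) * ZZ w‖ :=
          (norm_sub_le _ _).trans (add_le_add_left (norm_add_le _ _) _)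
      _ ≤ B1 * (1 + |w.im|) ^ (1 / 2 : ℝ) + A * Pool.Agent.H341R2.lam σ +
          M * (CZ * (1 + |Real.log σ|)) := by
          rw [norm_neg]; linarith
      _ ≤ _ := by nlinarith
  have hper := hP (av ell M) (HH LL ell L M) (av_zero h M) (av_summable h M) (HH_diff h hZ hL M)
    (fun w hw => HH_eq h hZ hsum M w hw) hgrowH
  -- the limit
  have hev : (fun U : ℝ => ∑ k ∈ Finset.Icc 1 ⌊Real.exp U⌋₊, av ell M k * (1 - Real.log k / U))
      =ᶠ[atTop] fun U : ℝ => 1 / (2 * Real.pi) * ∫ τ : ℝ, kap τ * (HH LL ell L M ((1 + τ * I) / U)).re := by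
    filter_upwards [eventually_ge_atTop 1] with U hU
    exact hper U hU
  refine Tendsto.congr' hev.symm ?_
  -- near zero
  obtain ⟨Cz, hCz⟩ := hzb
  obtain ⟨δ1, hδ1, h1⟩ : ∃ δ1 > 0, ∀ w : ℂ, w ≠ 0 → ‖w‖ < δ1 →
      |Real.log ‖F (1 + w)‖ - M * Real.log ‖w‖ - c0| < 1 := by
    have := (Metric.tendsto_nhdsWithin_nhds.1 hlead) 1 one_pos
    obtain ⟨δ, hδ, h2⟩ := this
    refine ⟨δ, hδ, fun w hw1 hw2 => ?_⟩
    have h3 := h2 (x := w) hw1 (by rw [dist_zero_right]; exact hw2)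
    rwa [Real.dist_eq] at h3
  obtain ⟨δ2, hδ2, h2⟩ : ∃ δ2 > 0, ∀ w : ℂ, 0 < w.re → ‖w‖ < δ2 →
      |(∑' p, Gen.dd LL ell p (1 + w)).re - d0| < 1 := by
    have := (Metric.tendsto_nhdsWithin_nhds.1 hd) 1 one_pos
    obtain ⟨δ, hδ, h2⟩ := this
    refine ⟨δ, hδ, fun w hw1 hw2 => ?_⟩
    have h3 := h2 (x := w) hw1 (by rw [dist_zero_right]; exact hw2)
    rwa [Real.dist_eq] at h3
  set δ0 : ℝ := min (min δ1 δ2) 1 with hδ0
  have hδ0p : 0 < δ0 := by
    rw [hδ0]; exact lt_min (lt_min hδ1 hδ2) one_pos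
  have hδ01 : δ0 ≤ δ1 := (min_le_left _ _).trans (min_le_left _ _)
  have hδ02 : δ0 ≤ δ2 := (min_le_left _ _).trans (min_le_right _ _)
  have hδ03 : δ0 ≤ 1 := min_le_right _ _
  set C1 : ℝ := (|c0| + 1) + (|d0| + 1) + M * |Cz| with hC1
  have hC10 : 0 ≤ C1 := by positivity
  have hnear : ∀ w : ℂ, 0 < w.re → ‖w‖ < δ0 → |(HH LL ell L M w).re| ≤ C1 := by
    intro w hw hw2
    have hw0 : w ≠ 0 := by
      intro h0; rw [h0] at hw; simp at hw
    rw [HH_re hexp M hw]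
    have e1 := h1 w hw0 (by linarith)
    have e2 := h2 w hw (by linarith)
    have e3 := hCz w hw (by linarith)
    have e4 : |(M : ℝ) * ((ZZ w).re + Real.log ‖w‖)| ≤ M * |Cz| := by
      rw [abs_mul, Nat.abs_cast]
      exact mul_le_mul_of_nonneg_left (e3.trans (le_abs_self _)) hM0
    rw [abs_lt] at e1 e2
    rw [abs_le] at e4 ⊢
    have := neg_abs_le c0
    have := le_abs_self c0
    have := neg_abs_le d0
    have := le_abs_self d0
    constructor <;> linarith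
  obtain ⟨CL, hCL0, hCL⟩ := lam_le
  obtain ⟨Cp, hCp⟩ := hPois L hL hB0 hgL
  set K1 : ℝ := A * (CL + 1) + M * CZ with hK1
  have hK10 : 0 ≤ K1 := by positivity
  refine hLim (fun U τ => (HH LL ell L M ((1 + τ * I) / U)).re) (-c0 + d0 - M * cz)
    (C1 + |Cp| + K1 * Real.pi) (δ0 / 4) (max 1 (4 / δ0)) (by positivity) (le_max_left _ _) ?_ ?_ ?_ ?_
  · intro U hU
    have hU1 : (1 : ℝ) ≤ U := (le_max_left _ _).trans hU
    have hc : ContinuousOn (HH LL ell L M) {w | 0 < w.re} := (HH_diff h hZ hL M).continuousOn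
    apply Complex.continuous_re.comp
    refine hc.comp_continuous (by fun_prop) (fun τ => ?_)
    simp only [Set.mem_ofPred_eq]
    rw [Complex.div_ofReal_re]
    have : (1 + (τ : ℂ) * I).re = 1 := by simp
    rw [this]
    positivity
  · intro τ
    have hw : Tendsto (fun U : ℝ => ((1 + τ * I) / U : ℂ)) atTop (𝓝 0) := by
      have h3 : Tendsto (fun U : ℝ => ((U : ℂ))⁻¹) atTop (𝓝 0) := by
        have h4 := tendsto_inv_atTop_zero (𝕜 := ℝ)
        have h5 := (Complex.continuous_ofReal.tendsto 0).comp h4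
        refine (h5.congr fun U => ?_)
        simp
      have h6 := h3.const_mul (1 + τ * I)
      rw [mul_zero] at h6
      exact h6
    have hpos : ∀ᶠ U : ℝ in atTop, 0 < ((1 + τ * I) / U : ℂ).re := by
      filter_upwards [eventually_gt_atTop 0] with U hU
      rw [Complex.div_ofReal_re]
      have : (1 + (τ : ℂ) * I).re = 1 := by simp
      rw [this]
      positivity
    have hw1 : Tendsto (fun U : ℝ => ((1 + τ * I) / U : ℂ)) atTop (𝓝[{w : ℂ | 0 < w.re}] 0) :=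
      tendsto_nhdsWithin_iff.2 ⟨hw, hpos⟩
    have hw2 : Tendsto (fun U : ℝ => ((1 + τ * I) / U : ℂ)) atTop (𝓝[≠] 0) := by
      refine tendsto_nhdsWithin_iff.2 ⟨hw, ?_⟩
      filter_upwards [hpos] with U hU
      intro h0
      rw [Set.mem_singleton_iff] at h0
      rw [h0] at hU
      simp at hU
    have h3 := hlead.comp hw2
    have h4 := hd.comp hw1
    have h5 := (h3.neg.add h4).sub ((hz τ).const_mul (M : ℝ))
    refine Tendsto.congr' ?_ h5
    filter_upwards [hpos] with U hU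
    simp only [Function.comp_apply]
    rw [HH_re hexp M hU]
  · intro U τ hU hτ
    have hU1 : (1 : ℝ) ≤ U := (le_max_left _ _).trans hU
    have hU2 : 4 / δ0 ≤ U := (le_max_right _ _).trans hU
    have hU0 : 0 < U := by linarith
    have hre : 0 < ((1 + τ * I) / U : ℂ).re := by
      rw [Complex.div_ofReal_re]
      have : (1 + (τ : ℂ) * I).re = 1 := by simp
      rw [this]
      positivity
    have hn : ‖((1 + τ * I) / U : ℂ)‖ < δ0 := by
      rw [norm_div, Complex.norm_real, Real.norm_of_nonneg hU0.le, div_lt_iff₀ hU0]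
      have h3 : ‖(1 + (τ : ℂ) * I)‖ ≤ 1 + |τ| := by
        refine (norm_add_le _ _).trans ?_
        simp
      have h4 : 4 ≤ δ0 * U := by
        rw [div_le_iff₀ hδ0p] at hU2
        linarith
      have h5 : |τ| ≤ δ0 * U / 4 := by linarith
      linarith
    have h3 := hnear _ hre hn
    refine h3.trans ?_
    have h4 : 0 ≤ Real.log (1 + |τ|) := Real.log_nonneg (by have := abs_nonneg τ; linarith)
    have h5 : 0 ≤ |Cp| + K1 * Real.pi := by positivity
    nlinarith [mul_nonneg hC10 h4, mul_nonneg h5 h4]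
  · intro U hU
    have hU1 : (1 : ℝ) ≤ U := (le_max_left _ _).trans hU
    have hU0 : 0 < U := by linarith
    have hσ0 : 0 < 1 / U := by positivity
    have hσ1 : 1 / U ≤ 1 := by rw [div_le_one hU0]; exact hU1
    have hlogU : 0 ≤ Real.log U := Real.log_nonneg hU1
    have hlogσ : |Real.log (1 / U)| = Real.log U := by
      rw [one_div, Real.log_inv, abs_neg, abs_of_nonneg hlogU]
    have hw : ∀ t : ℝ, ((1 + ((U * t : ℝ) : ℂ) * I) / U : ℂ) = ((1 / U : ℝ) : ℂ) + t * I := by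
      intro t
      have hUc : (U : ℂ) ≠ 0 := by exact_mod_cast hU0.ne'
      push_cast
      field_simp
    have hre : ∀ t : ℝ, 0 < (((1 / U : ℝ) : ℂ) + t * I).re := by
      intro t; simp; positivity
    obtain ⟨hi1, hi2⟩ := hCp (1 / U) hσ0 hσ1
    have hbd : ∀ t : ℝ, |(HH LL ell L M (((1 / U : ℝ) : ℂ) + t * I)).re| ≤
        |(L (((1 / U : ℝ) : ℂ) + t * I)).re| + K1 * (1 + Real.log U) := by
      intro t
      set w : ℂ := ((1 / U : ℝ) : ℂ) + t * I with hwdef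
      have hwre : w.re = 1 / U := by simp [hwdef]
      have e1 : ‖∑' p, Gen.dd LL ell p (1 + w)‖ ≤ A * (CL + Real.log U) := by
        refine (DD_le h (hre t)).trans (mul_le_mul_of_nonneg_left ?_ hA0)
        rw [← hwdef, hwre]
        have := hCL (1 / U) hσ0 hσ1
        rw [hlogσ] at this
        exact this
      have e2 : ‖ZZ w‖ ≤ CZ * (1 + Real.log U) := by
        have := hCZ w (hre t)
        rw [hwre, hlogσ] at this
        exact this
      have e3 := (Complex.abs_re_le_norm (∑' p, Gen.dd LL ell p (1 + w))).trans e1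
      have e4 := (Complex.abs_re_le_norm (ZZ w)).trans e2
      have e5 : (HH LL ell L M w).re = -(L w).re + (∑' p, Gen.dd LL ell p (1 + w)).re -
          M * (ZZ w).re := by
        unfold HH
        rw [Complex.sub_re, Complex.add_re, Complex.neg_re,
          show (M : ℂ) = ((M : ℝ) : ℂ) by push_cast; rfl, Complex.re_ofReal_mul]
      rw [e5]
      have e6 : |(M : ℝ) * (ZZ w).re| ≤ M * (CZ * (1 + Real.log U)) := by
        rw [abs_mul, Nat.abs_cast]
        exact mul_le_mul_of_nonneg_left e4 hM0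
      have e7 : A * (CL + Real.log U) ≤ A * (CL + 1) * (1 + Real.log U) := by
        have : 0 ≤ A * (1 + CL * Real.log U) := by positivity
        nlinarith
      calc |-(L w).re + (∑' p, Gen.dd LL ell p (1 + w)).re - M * (ZZ w).re|
          ≤ |(L w).re| + |(∑' p, Gen.dd LL ell p (1 + w)).re| + |(M : ℝ) * (ZZ w).re| := by
            refine (abs_sub _ _).trans (add_le_add_left ((abs_add_le _ _).trans ?_) _)
            rw [abs_neg]
        _ ≤ _ := by rw [hK1]; nlinarith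
    have hmeas : Continuous (fun t : ℝ => |(HH LL ell L M (((1 / U : ℝ) : ℂ) + t * I)).re| / (1 + t ^ 2)) := by
      have hc : ContinuousOn (HH LL ell L M) {w | 0 < w.re} := (HH_diff h hZ hL M).continuousOn
      have h3 : Continuous (fun t : ℝ => HH LL ell L M (((1 / U : ℝ) : ℂ) + t * I)) :=
        hc.comp_continuous (by fun_prop) hre
      refine (Complex.continuous_re.comp h3).abs.div (by fun_prop) (fun t => by positivity)
    have hint2 : Integrable (fun t : ℝ => K1 * (1 + Real.log U) / (1 + t ^ 2)) := by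
      have := integrable_inv_one_add_sq.const_mul (K1 * (1 + Real.log U))
      simpa [div_eq_mul_inv] using this
    have hval2 : ∫ t : ℝ, K1 * (1 + Real.log U) / (1 + t ^ 2) = K1 * (1 + Real.log U) * Real.pi := by
      have e : (fun t : ℝ => K1 * (1 + Real.log U) / (1 + t ^ 2)) =
          fun t : ℝ => K1 * (1 + Real.log U) * (1 + t ^ 2)⁻¹ := by
        funext t; rw [div_eq_mul_inv]
      rw [e, integral_const_mul, integral_univ_inv_one_add_sq]
    have hle : ∀ t : ℝ, |(HH LL ell L M (((1 / U : ℝ) : ℂ) + t * I)).re| / (1 + t ^ 2) ≤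
        |(L (((1 / U : ℝ) : ℂ) + t * I)).re| / (1 + t ^ 2) + K1 * (1 + Real.log U) / (1 + t ^ 2) := by
      intro t
      rw [← add_div]
      exact div_le_div_of_nonneg_right (hbd t) (by positivity)
    have hint : Integrable (fun t : ℝ => |(HH LL ell L M (((1 / U : ℝ) : ℂ) + t * I)).re| / (1 + t ^ 2)) := by
      refine (hi1.add hint2).mono' hmeas.aestronglyMeasurable (Eventually.of_forall fun t => ?_)
      rw [Real.norm_of_nonneg (by positivity)]
      exact hle t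
    have hfe : (fun t : ℝ => |(HH LL ell L M ((1 + ((U * t : ℝ) : ℂ) * I) / U)).re| / (1 + t ^ 2)) =
        fun t : ℝ => |(HH LL ell L M (((1 / U : ℝ) : ℂ) + t * I)).re| / (1 + t ^ 2) := by
      funext t
      rw [hw t]
    rw [hfe]
    refine ⟨hint, ?_⟩
    have h3 := integral_mono hint (hi1.add hint2) hle
    simp only [Pi.add_apply] at h3
    rw [integral_add hi1 hint2, hval2] at h3
    have h4 : ∫ t : ℝ, |(L (((1 / U : ℝ) : ℂ) + t * I)).re| / (1 + t ^ 2) ≤ |Cp| :=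
      hi2.trans (le_abs_self _)
    have h5 := Real.pi_pos
    have h6 : 0 ≤ |Cp| := abs_nonneg _
    nlinarith [mul_nonneg h6 hlogU, mul_nonneg hC10 hlogU]

end Pool.Agent.H234R4.DRH
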