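import Pool.Agent.H234R4.DRH.Conv2

/-! The logarithmic means converge. -/

set_option autoImplicit false

open Complex Filter Topology Finset MeasureTheory

namespace Pool.Agent.H234R4.DRH

open Pool.Agent.H438R3.BSD Pool.Agent.H438R3.BSD.Gen Pool.Agent.H814R3.BSD

variable {LL : ℕ → ℂ → ℂ} {ell : ℕ → ℝ} {A : ℝ}

/-- For general local data: if `F` has no zeros in `Re s > 1`, grows polynomially in `Re s ≥ 1` and
the sum of the local error terms has a limit, the logarithmic means converge. -/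
theorem converse (hP : TaskPerron) (hBC : TaskBC) (hPois : TaskPois) (hZ : TaskZ) (hZ0 : TaskZ0)
    (hLim : TaskLim) (hAvg : TaskAvg) (hAvg2 : TaskAvg2) (hE : TaskEulerG) (h : Loc LL ell A)
    {F : ℂ → ℂ} (hF : Differentiable ℂ F)
    (hprod : ∀ s : ℂ, 3 / 2 < s.re → HasProd (fun p : ℕ => exp (LL p s)) (F s))
    (hnz : ∀ s : ℂ, 1 < s.re → F s ≠ 0)
    (hgrow : ∃ C K : ℝ, ∀ s : ℂ, 1 ≤ s.re → ‖F s‖ ≤ C * (1 + ‖s‖) ^ K)
    (M : ℕ) (c0 d0 : ℝ)
    (hlead : Tendsto (fun w : ℂ => Real.log ‖F (1 + w)‖ - M * Real.log ‖w‖) (𝓝[≠] 0) (𝓝 c0))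
    (hd : Tendsto (fun w : ℂ => (∑' p, Gen.dd LL ell p (1 + w)).re) (𝓝[{w : ℂ | 0 < w.re}] 0) (𝓝 d0)) :
    Tendsto (fun x : ℕ => Gen.LA (lE ell) M x) atTop
      (𝓝 (-c0 + M * Real.eulerMascheroniConstant + d0)) := by
  obtain ⟨L, hL, hexp, hsum, hB0⟩ := hE LL ell A F h hF hprod hnz
  obtain ⟨c, hc1, hc2, hc3⟩ := hZ0
  have h1 := perron_lim hP hBC hPois hZ hLim h hL hexp hsum hB0 hgrow M c0 d0
    (c - Real.eulerMascheroniConstant) hlead hd hc2 hc3
  have h2 := hAvg (av ell M) (A + 2 * M) _ (av_zero h M) (fun n hn => av_le h M n hn) h1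
  have h3 := hAvg2 (fun n : ℕ => (∑ k ∈ Finset.Icc 1 n, zz k) - Real.log (Real.log n)) c hc1
  have h4 := h2.add (h3.const_mul (M : ℝ))
  have e1 : -c0 + d0 - M * (c - Real.eulerMascheroniConstant) + M * c =
      -c0 + M * Real.eulerMascheroniConstant + d0 := by ring
  rw [e1] at h4
  refine h4.congr fun n => ?_
  unfold Gen.LA
  rw [mul_div_assoc', ← add_div]
  congr 1
  rw [Finset.mul_sum, ← Finset.sum_add_distrib]
  refine Finset.sum_congr rfl fun j _ => ?_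
  have e2 : ∑ k ∈ Finset.Icc 1 j, av ell M k = lE ell j - M * ∑ k ∈ Finset.Icc 1 j, zz k := by
    unfold av lE
    rw [Finset.sum_sub_distrib, Finset.mul_sum]
  rw [e2]
  ring

end Pool.Agent.H234R4.DRH
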