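import Pool.Agent.H234R4.DRH.All

/-! Finite products of local data; all characters of a modulus at once. -/

set_option autoImplicit false

open Complex Filter Topology Finset

namespace Pool.Agent.H234R4.DRH

open Pool.Agent.H438R3.BSD Pool.Agent.H438R3.BSD.Gen Pool.Agent.H814R3.BSD

lemma dd_sum {ι : Type} (S : Finset ι) (LL : ι → ℕ → ℂ → ℂ) (ell : ι → ℕ → ℝ) (n : ℕ) (s : ℂ) :
    Gen.dd (fun n s => ∑ i ∈ S, LL i n s) (fun n => ∑ i ∈ S, ell i n) n s =
      ∑ i ∈ S, Gen.dd (LL i) (ell i) n s := by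
  unfold Gen.dd
  rw [Finset.sum_add_distrib]
  push_cast
  rw [Finset.sum_mul]

/-- local data are closed under finite sums -/
lemma loc_sum {ι : Type} (S : Finset ι) (LL : ι → ℕ → ℂ → ℂ) (ell : ι → ℕ → ℝ) (A : ℝ)
    (h : ∀ i ∈ S, Loc (LL i) (ell i) A) (hA : 0 ≤ A) :
    Loc (fun n s => ∑ i ∈ S, LL i n s) (fun n => ∑ i ∈ S, ell i n) (S.card * A) := by
  refine ⟨by positivity, ?_, ?_, ?_, ?_, ?_, ?_⟩
  · intro n s hn
    exact Finset.sum_eq_zero fun i hi => (h i hi).zeroL n s hn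
  · intro n hn
    exact Finset.sum_eq_zero fun i hi => (h i hi).zeroE n hn
  · intro n hn
    refine (Finset.abs_sum_le_sum_abs _ _).trans ?_
    refine (Finset.sum_le_card_nsmul S _ _ fun i hi => (h i hi).ell_le n hn).trans ?_
    rw [nsmul_eq_mul, mul_assoc]
  · intro n s hn hs
    rw [dd_sum]
    refine (norm_sum_le _ _).trans ?_
    refine (Finset.sum_le_card_nsmul S _ _ fun i hi => (h i hi).dd_le n s hn hs).trans ?_
    rw [nsmul_eq_mul, mul_assoc]
  · intro n w hn hw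
    rw [dd_sum]
    refine (norm_sum_le _ _).trans ?_
    refine (Finset.sum_le_card_nsmul S _ _ fun i hi => (h i hi).dd_real n w hn hw).trans ?_
    rw [nsmul_eq_mul, mul_assoc]
  · intro n
    have : (fun s => ∑ i ∈ S, LL i n s) = ∑ i ∈ S, LL i n := by
      funext s; simp
    rw [this]
    exact DifferentiableOn.sum fun i hi => (h i hi).diff n

lemma lE_sum {ι : Type} (S : Finset ι) (ell : ι → ℕ → ℝ) (n : ℕ) :
    lE (fun n => ∑ i ∈ S, ell i n) n = ∑ i ∈ S, lE (ell i) n := by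
  unfold lE
  exact Finset.sum_comm

variable (N : ℕ) [NeZero N]

open Classical in
/-- the characters `≠ 1` -/
noncomputable def SS : Finset (DirichletCharacter ℂ N) := Finset.univ.filter (fun χ => χ ≠ 1)

omit [NeZero N] in
lemma mem_SS [NeZero N] {χ : DirichletCharacter ℂ N} : χ ∈ SS N ↔ χ ≠ 1 := by
  classical
  unfold SS
  simp

/-- the product of all partial Euler products -/
noncomputable def EPC (x : ℕ) : ℝ := ∏ χ ∈ SS N, EPD χ x

/-- its logarithmic mean -/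
noncomputable def LMC (κ : ℝ) (x : ℕ) : ℝ :=
  (∑ n ∈ Finset.Icc 2 x, (Real.log (EPC N n) + κ * Real.log (Real.log n)) / n) / Real.log x

noncomputable def FC (s : ℂ) : ℂ := ∏ χ ∈ SS N, FF χ s

noncomputable def LLC (n : ℕ) (s : ℂ) : ℂ := ∑ χ ∈ SS N, LLc Nat.Prime (cc χ) n s

noncomputable def ellC (n : ℕ) : ℝ := ∑ χ ∈ SS N, ellc Nat.Prime (cc χ) n

lemma locCyc : Loc (LLC N) (ellC N) ((SS N).card * (4 * 2)) :=
  loc_sum (SS N) (fun χ => LLc Nat.Prime (cc χ)) (fun χ => ellc Nat.Prime (cc χ)) (4 * 2)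
    (fun χ _ => locDir χ) (by norm_num)

lemma FC_diff : Differentiable ℂ (FC N) := by
  have : FC N = ∏ χ ∈ SS N, FF χ := by
    funext s; unfold FC; simp
  rw [this]
  exact Differentiable.finsetProd fun χ hχ => FF_diff χ ((mem_SS N).1 hχ)

lemma prodCyc (s : ℂ) (hs : 3 / 2 < s.re) : HasProd (fun p : ℕ => exp (LLC N p s)) (FC N s) := by
  have h1 : HasProd (fun p : ℕ => ∏ χ ∈ SS N, exp (LLc Nat.Prime (cc χ) p s)) (∏ χ ∈ SS N, FF χ s) :=
    hasProd_prod fun χ _ => prodDir χ s hs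
  have e : (fun p : ℕ => exp (LLC N p s)) =
      fun p : ℕ => ∏ χ ∈ SS N, exp (LLc Nat.Prime (cc χ) p s) := by
    funext p
    unfold LLC
    rw [Complex.exp_sum]
  rw [e]
  exact h1

omit [NeZero N] in
lemma EPD_pos {χ : DirichletCharacter ℂ N} (x : ℕ) : 0 < EPD χ x := by
  unfold EPD
  refine Finset.prod_pos fun p hp => inv_pos.2 ?_
  exact lt_of_le_of_ne (norm_nonneg _) (fac_ne χ (Finset.mem_filter.1 hp).2).symm

lemma log_EPC (n : ℕ) : Real.log (EPC N n) = -(1 / 2) * lE (ellC N) n := by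
  unfold EPC
  rw [Real.log_prod (fun χ _ => (EPD_pos N n).ne')]
  have e : ellC N = fun n => ∑ χ ∈ SS N, ellc Nat.Prime (cc χ) n := rfl
  rw [e, lE_sum, Finset.mul_sum]
  exact Finset.sum_congr rfl fun χ _ => log_EPD χ n

lemma LMC_eq (κ : ℝ) (x : ℕ) : LMC N κ x = -(1 / 2) * Gen.LA (lE (ellC N)) (2 * κ) x := by
  unfold LMC Gen.LA
  rw [mul_div_assoc']
  congr 1
  rw [Finset.mul_sum]
  refine Finset.sum_congr rfl fun n _ => ?_
  rw [log_EPC]
  ring

lemma LMC_sum (m : DirichletCharacter ℂ N → ℕ) (x : ℕ) :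
    LMC N (∑ χ ∈ SS N, (m χ : ℝ)) x = ∑ χ ∈ SS N, LMD χ (m χ) x := by
  unfold LMC LMD
  rw [← Finset.sum_div]
  congr 1
  rw [Finset.sum_comm]
  refine Finset.sum_congr rfl fun n _ => ?_
  rw [← Finset.sum_div]
  congr 1
  unfold EPC
  rw [Real.log_prod (fun χ _ => (EPD_pos N n).ne'), Finset.sum_add_distrib, Finset.sum_mul]

lemma LMC_split (κ κ' : ℝ) (x : ℕ) : LMC N κ x = LMC N κ' x +
    (κ - κ') * ((∑ n ∈ Finset.Icc 2 x, Real.log (Real.log n) / n) / Real.log x) := by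
  unfold LMC
  rw [mul_div_assoc', ← add_div]
  congr 1
  rw [Finset.mul_sum, ← Finset.sum_add_distrib]
  refine Finset.sum_congr rfl fun n _ => ?_
  ring

end Pool.Agent.H234R4.DRH
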