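import Pool.Agent.H234R4.DRH.Cyc

/-! All characters of a modulus at once: the theorem. -/

set_option autoImplicit false

open Complex Filter Topology Finset

namespace Pool.Agent.H234R4.DRH

open Pool.Agent.H438R3.BSD Pool.Agent.H438R3.BSD.Gen Pool.Agent.H814R3.BSD

variable (N : ℕ) [NeZero N]

lemma FF_ev_ne {χ : DirichletCharacter ℂ N} (h1 : χ ≠ 1) : ∀ᶠ w : ℂ in 𝓝[≠] 0, FF χ (1 + w) ≠ 0 := by
  obtain ⟨M, hM⟩ := Gen.order_finite (locDir χ) (FF_diff χ h1) (fun s hs => prodDir χ s hs)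
  have ha : AnalyticAt ℂ (FF χ) 1 := (FF_diff χ h1).analyticAt _
  have h4 : ∀ᶠ z in 𝓝[≠] (1 : ℂ), FF χ z ≠ 0 := by
    rcases ha.eventually_eq_zero_or_eventually_ne_zero with h5 | h5
    · have h6 := analyticOrderAt_eq_top.2 h5
      rw [hM] at h6
      exact absurd h6 (ENat.natCast_ne_top M)
    · exact h5
  have h5 : Tendsto (fun w : ℂ => (1 : ℂ) + w) (𝓝[≠] 0) (𝓝[≠] 1) := by
    refine tendsto_nhdsWithin_iff.2 ⟨?_, ?_⟩
    · have : ContinuousAt (fun w : ℂ => (1 : ℂ) + w) 0 := by fun_prop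
      have h6 := this.tendsto
      simp only [add_zero] at h6
      exact h6.mono_left nhdsWithin_le_nhds
    · filter_upwards [self_mem_nhdsWithin] with w hw
      simpa using hw
  exact h5.eventually h4

lemma leadFC (m : DirichletCharacter ℂ N → ℕ)
    (hm : ∀ χ : DirichletCharacter ℂ N, χ ≠ 1 → analyticOrderAt χ.LFunction (1 / 2) = m χ) :
    ∃ c : ℝ, Tendsto (fun w : ℂ => Real.log ‖FC N (1 + w)‖ -
      ((2 * ∑ χ ∈ SS N, m χ : ℕ) : ℝ) * Real.log ‖w‖) (𝓝[≠] 0) (𝓝 c) := by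
  have h1 : ∀ χ ∈ SS N, Tendsto (fun w : ℂ => Real.log ‖FF χ (1 + w)‖ -
      ((2 * m χ : ℕ) : ℝ) * Real.log ‖w‖) (𝓝[≠] 0)
      (𝓝 (2 * Real.log (‖iteratedDeriv (m χ) χ.LFunction (1 / 2)‖ / (m χ).factorial))) :=
    fun χ hχ => leadFF χ TConj.conj_ok lead_ok ((mem_SS N).1 hχ) (m χ) (hm χ ((mem_SS N).1 hχ))
  have h2 := tendsto_finsetSum (SS N) h1
  refine ⟨_, Tendsto.congr' ?_ h2⟩
  have h3 : ∀ᶠ w : ℂ in 𝓝[≠] 0, ∀ χ ∈ SS N, FF χ (1 + w) ≠ 0 :=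
    (Finset.eventually_all (SS N)).2 fun χ hχ => FF_ev_ne N ((mem_SS N).1 hχ)
  filter_upwards [h3] with w hw
  unfold FC
  rw [norm_prod, Real.log_prod (fun χ hχ => norm_ne_zero_iff.2 (hw χ hχ)), Finset.sum_sub_distrib]
  congr 1
  push_cast
  rw [Finset.mul_sum, Finset.sum_mul]

theorem cyc : ∃ m : DirichletCharacter ℂ N → ℕ,
    (∀ χ : DirichletCharacter ℂ N, χ ≠ 1 → analyticOrderAt χ.LFunction (1 / 2) = m χ) ∧
    (∀ κ : ℝ, (∃ C : ℝ, ∀ᶠ x : ℕ in atTop, C ≤ LMC N κ x) ↔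
      ((∀ χ : DirichletCharacter ℂ N, χ ≠ 1 → ∀ s : ℂ, 1 / 2 < s.re → χ.LFunction s ≠ 0) ∧
        ∑ χ ∈ SS N, (m χ : ℝ) ≤ κ)) ∧
    (∀ κ : ℝ, (∃ l : ℝ, Tendsto (fun x : ℕ => LMC N κ x) atTop (𝓝 l)) ↔
      ((∀ χ : DirichletCharacter ℂ N, χ ≠ 1 → ∀ s : ℂ, 1 / 2 < s.re → χ.LFunction s ≠ 0) ∧
        κ = ∑ χ ∈ SS N, (m χ : ℝ))) := by
  classical
  have h0 : ∀ χ : DirichletCharacter ℂ N, ∃ m : ℕ, χ ≠ 1 →
      analyticOrderAt χ.LFunction (1 / 2) = m := by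
    intro χ
    by_cases h1 : χ = 1
    · exact ⟨0, fun h => absurd h1 h⟩
    · obtain ⟨m, hm, -⟩ := all χ h1
      exact ⟨m, fun _ => hm⟩
  choose m hm using h0
  have hall : ∀ χ ∈ SS N, (∀ s : ℂ, 1 / 2 < s.re → χ.LFunction s ≠ 0) →
      ∃ l : ℝ, Tendsto (fun x : ℕ => LMD χ (m χ) x) atTop (𝓝 l) := by
    intro χ hχ hnz
    have h1 := (mem_SS N).1 hχ
    obtain ⟨m', hm', hA, hB⟩ := all χ h1
    have e : m' = m χ := by
      have := hm χ h1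
      rw [hm'] at this
      exact_mod_cast this
    rw [← e]
    exact ⟨_, hB hnz⟩
  obtain ⟨M, hM, hA, hB⟩ := Gen.main (locCyc N) (FC_diff N) (fun s hs => prodCyc N s hs)
    (lE (ellC N)) 0 (fun n => by simp)
  have hM2 : M = 2 * ∑ χ ∈ SS N, m χ := by
    obtain ⟨-, h3⟩ := lead_ok (FC N) 1 M ((FC_diff N).analyticAt 1) hM
    obtain ⟨c, hc⟩ := leadFC N m hm
    exact order_unique h3 hc
  have hM3 : (M : ℝ) = 2 * ∑ χ ∈ SS N, (m χ : ℝ) := by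
    rw [hM2]; push_cast; rfl
  -- convergence
  have hconv : (∀ χ : DirichletCharacter ℂ N, χ ≠ 1 → ∀ s : ℂ, 1 / 2 < s.re → χ.LFunction s ≠ 0) →
      ∃ l : ℝ, Tendsto (fun x : ℕ => LMC N (∑ χ ∈ SS N, (m χ : ℝ)) x) atTop (𝓝 l) := by
    intro hnz
    have h1 : ∀ χ : DirichletCharacter ℂ N, ∃ l : ℝ, χ ∈ SS N →
        Tendsto (fun x : ℕ => LMD χ (m χ) x) atTop (𝓝 l) := by
      intro χ
      by_cases hχ : χ ∈ SS N
      · obtain ⟨l, hl⟩ := hall χ hχ (hnz χ ((mem_SS N).1 hχ))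
        exact ⟨l, fun _ => hl⟩
      · exact ⟨0, fun h => absurd h hχ⟩
    choose l hl using h1
    refine ⟨_, (tendsto_finsetSum (SS N) fun χ hχ => hl χ hχ).congr fun x => ?_⟩
    rw [LMC_sum]
  have hlow : ∀ κ : ℝ, (∃ C : ℝ, ∀ᶠ x : ℕ in atTop, C ≤ LMC N κ x) →
      ((∀ χ : DirichletCharacter ℂ N, χ ≠ 1 → ∀ s : ℂ, 1 / 2 < s.re → χ.LFunction s ≠ 0) ∧
        ∑ χ ∈ SS N, (m χ : ℝ) ≤ κ) := by
    rintro κ ⟨C, hC'⟩
    have hno : ¬ (2 * κ < M ∨ ∃ ρ : ℂ, 1 < ρ.re ∧ FC N ρ = 0) := by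
      intro h
      have h3 := (hA (2 * κ) h (-2 * C)).1
      apply h3
      filter_upwards [hC'] with x hx
      rw [LMC_eq] at hx
      rw [not_lt]
      linarith
    push Not at hno
    obtain ⟨h3, h4⟩ := hno
    refine ⟨fun χ hχ s hs hz => ?_, ?_⟩
    · apply h4 (s + 1 / 2) (by simp; linarith)
      unfold FC
      refine Finset.prod_eq_zero ((mem_SS N).2 hχ) ?_
      unfold FF
      rw [add_sub_cancel_right, hz, zero_mul]
    · rw [hM3] at h3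
      linarith
  refine ⟨m, hm, fun κ => ⟨hlow κ, ?_⟩, fun κ => ⟨?_, ?_⟩⟩
  · rintro ⟨hnz, hκ⟩
    obtain ⟨ℓ, h3⟩ := hconv hnz
    set S0 := ∑ χ ∈ SS N, (m χ : ℝ) with hS0
    refine ⟨(ℓ - 1) - (κ - S0) * |Real.log (Real.log 2)|, ?_⟩
    filter_upwards [h3.eventually (lt_mem_nhds (show ℓ - 1 < ℓ by linarith)),
      eventually_ge_atTop 3] with x hx1 hx2
    rw [LMC_split N κ S0 x]
    have h4 := meanll x hx2
    have h5 : 0 ≤ κ - S0 := by linarith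
    nlinarith [mul_le_mul_of_nonneg_left h4 h5]
  · rintro ⟨l, hl⟩
    obtain ⟨hnz, hκ⟩ := hlow κ ⟨l - 1, by
      filter_upwards [hl.eventually (lt_mem_nhds (show l - 1 < l by linarith))] with x hx
      exact hx.le⟩
    refine ⟨hnz, ?_⟩
    by_contra hne
    have hlt : ∑ χ ∈ SS N, (m χ : ℝ) < κ := lt_of_le_of_ne hκ (fun h => hne h.symm)
    have hreal : ∀ σ : ℝ, 1 < σ → FC N σ ≠ 0 := by
      intro σ hσ
      unfold FC
      rw [Finset.prod_ne_zero_iff]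
      intro χ hχ
      have h1 := (mem_SS N).1 hχ
      unfold FF
      refine mul_ne_zero (hnz χ h1 _ (by simp; linarith)) ?_
      have h2 : χ⁻¹ ≠ 1 := by rwa [ne_eq, inv_eq_one]
      exact hnz χ⁻¹ h2 _ (by simp; linarith)
    have h3 := (hB hreal (2 * κ) (Or.inl (by rw [hM3]; linarith)) (-2 * (l + 1))).1
    have h4 := hl.eventually (gt_mem_nhds (show l < l + 1 by linarith))
    obtain ⟨x, hx1, hx2⟩ := (h3.and_eventually h4).exists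
    rw [LMC_eq] at hx2
    linarith
  · rintro ⟨hnz, hκ⟩
    rw [hκ]
    exact hconv hnz

end Pool.Agent.H234R4.DRH
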