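import Pool.Agent.H234R4.DRH.Stmts

/-! The local data of `L(s - 1/2, χ) L(s - 1/2, χ⁻¹)`. -/

set_option autoImplicit false

open Complex Filter Topology Finset

namespace Pool.Agent.H234R4.DRH

open Pool.Agent.H438R3.BSD Pool.Agent.H438R3.BSD.Gen

variable {N : ℕ} [NeZero N] (χ : DirichletCharacter ℂ N)

omit [NeZero N] in
lemma cc_le (p m : ℕ) : |cc χ p m| ≤ 2 * (p : ℝ) ^ ((m : ℝ) / 2) := by
  unfold cc
  rw [abs_mul, abs_mul, abs_of_nonneg (show (0 : ℝ) ≤ (p : ℝ) ^ ((m : ℝ) / 2) by positivity)]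
  refine mul_le_mul_of_nonneg_right ?_ (by positivity)
  rw [abs_of_pos (show (0 : ℝ) < 2 by norm_num)]
  have h1 := Complex.abs_re_le_norm ((χ (p : ZMod N)) ^ m)
  rw [norm_pow] at h1
  have h2 : ‖χ (p : ZMod N)‖ ^ m ≤ 1 := pow_le_one₀ (norm_nonneg _) (χ.norm_le_one _)
  linarith

omit [NeZero N] in
lemma locDir : Loc (LLc Nat.Prime (cc χ)) (ellc Nat.Prime (cc χ)) (4 * 2) :=
  locC (fun p hp => hp) (by norm_num) (fun p _ m _ => cc_le χ p m)

omit [NeZero N] in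
lemma inv_val (a : ZMod N) : χ⁻¹ a = starRingEnd ℂ (χ a) := by
  rw [← MulChar.star_eq_inv χ, MulChar.star_apply]
  rfl

omit [NeZero N] in
/-- the logarithm of the Euler factor -/
lemma LLdir {p : ℕ} (hp : p.Prime) {s : ℂ} (hs : 1 / 2 < s.re) :
    LLc Nat.Prime (cc χ) p s =
      -Complex.log (1 - χ (p : ZMod N) * (p : ℂ) ^ (-(s - 1 / 2))) +
      -Complex.log (1 - χ⁻¹ (p : ZMod N) * (p : ℂ) ^ (-(s - 1 / 2))) ∧
    exp (LLc Nat.Prime (cc χ) p s) = (1 - χ (p : ZMod N) * (p : ℂ) ^ (-(s - 1 / 2)))⁻¹ *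
      (1 - χ⁻¹ (p : ZMod N) * (p : ℂ) ^ (-(s - 1 / 2)))⁻¹ := by
  have hpc : (p : ℂ) ≠ 0 := by exact_mod_cast hp.ne_zero
  have hp1 : (1 : ℝ) < p := by exact_mod_cast hp.one_lt
  have hp0 : (0 : ℝ) < p := by linarith
  have key : ∀ ψ : DirichletCharacter ℂ N, ‖ψ (p : ZMod N) * (p : ℂ) ^ (-(s - 1 / 2))‖ < 1 := by
    intro ψ
    rw [norm_mul, Complex.norm_natCast_cpow_of_pos hp.pos]
    have h3 : ‖ψ (p : ZMod N)‖ ≤ 1 := ψ.norm_le_one _
    have h4 : (p : ℝ) ^ (-(s - 1 / 2)).re < 1 := by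
      apply Real.rpow_lt_one_of_one_lt_of_neg hp1
      simp; linarith
    have h5 : (0 : ℝ) < (p : ℝ) ^ (-(s - 1 / 2)).re := Real.rpow_pos_of_pos hp0 _
    nlinarith
  have ser : ∀ ψ : DirichletCharacter ℂ N,
      HasSum (fun m : ℕ => (ψ (p : ZMod N) * (p : ℂ) ^ (-(s - 1 / 2))) ^ (m + 1) / ((m : ℂ) + 1))
        (-Complex.log (1 - ψ (p : ZMod N) * (p : ℂ) ^ (-(s - 1 / 2)))) := by
    intro ψ
    have h3 := Complex.hasSum_taylorSeries_neg_log (key ψ)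
    have h4 := (hasSum_nat_add_iff' 1).2 h3
    simp only [Finset.sum_range_one, pow_zero, Nat.cast_zero, div_zero, sub_zero, Nat.cast_add,
      Nat.cast_one] at h4
    exact h4
  have hne : ∀ ψ : DirichletCharacter ℂ N, 1 - ψ (p : ZMod N) * (p : ℂ) ^ (-(s - 1 / 2)) ≠ 0 := by
    intro ψ h0
    have h1 := key ψ
    have : ψ (p : ZMod N) * (p : ℂ) ^ (-(s - 1 / 2)) = 1 := by linear_combination -h0
    rw [this] at h1
    simp at h1
  have e : LLc Nat.Prime (cc χ) p s =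
      -Complex.log (1 - χ (p : ZMod N) * (p : ℂ) ^ (-(s - 1 / 2))) +
      -Complex.log (1 - χ⁻¹ (p : ZMod N) * (p : ℂ) ^ (-(s - 1 / 2))) := by
    unfold LLc
    rw [if_pos hp, ← ((ser χ).add (ser χ⁻¹)).tsum_eq]
    refine tsum_congr fun m => ?_
    rw [← add_div]
    congr 1
    unfold cc
    rw [inv_val, mul_pow, mul_pow, ← map_pow (starRingEnd ℂ), ← add_mul]
    have h6 : (χ (p : ZMod N)) ^ (m + 1) + starRingEnd ℂ ((χ (p : ZMod N)) ^ (m + 1)) =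
        ((2 * ((χ (p : ZMod N)) ^ (m + 1)).re : ℝ) : ℂ) := by
      rw [Complex.add_conj]
    rw [h6]
    push_cast
    rw [mul_assoc]
    congr 1
    rw [Complex.ofReal_cpow hp0.le, ← Complex.cpow_nat_mul]
    simp only [Complex.ofReal_natCast]
    rw [← Complex.cpow_add _ _ hpc]
    congr 1
    push_cast
    ring
  refine ⟨e, ?_⟩
  rw [e, Complex.exp_add, Complex.exp_neg, Complex.exp_neg, Complex.exp_log (hne χ),
    Complex.exp_log (hne χ⁻¹)]

lemma prodDir (s : ℂ) (hs : 3 / 2 < s.re) :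
    HasProd (fun p : ℕ => exp (LLc Nat.Prime (cc χ) p s)) (FF χ s) := by
  have hs' : 1 < (s - 1 / 2).re := by simp; linarith
  have h1 := (DirichletCharacter.LSeries_eulerProduct_hasProd χ hs').mul
    (DirichletCharacter.LSeries_eulerProduct_hasProd χ⁻¹ hs')
  have hF : FF χ s = LSeries (fun n => χ (n : ZMod N)) (s - 1 / 2) *
      LSeries (fun n => χ⁻¹ (n : ZMod N)) (s - 1 / 2) := by
    unfold FF
    rw [DirichletCharacter.LFunction_eq_LSeries χ hs', DirichletCharacter.LFunction_eq_LSeries χ⁻¹ hs']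
  rw [hF]
  have hsupp : Function.mulSupport (fun p : ℕ => exp (LLc Nat.Prime (cc χ) p s)) ⊆
      Set.range ((↑) : Nat.Primes → ℕ) := by
    intro p hp
    by_contra hcon
    apply hp
    have : ¬ p.Prime := fun h => hcon ⟨⟨p, h⟩, rfl⟩
    simp only
    unfold LLc
    rw [if_neg this, Complex.exp_zero]
  have h3 : HasProd ((fun p : ℕ => exp (LLc Nat.Prime (cc χ) p s)) ∘ ((↑) : Nat.Primes → ℕ))
      (LSeries (fun n => χ (n : ZMod N)) (s - 1 / 2) *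
      LSeries (fun n => χ⁻¹ (n : ZMod N)) (s - 1 / 2)) := by
    have e : ((fun p : ℕ => exp (LLc Nat.Prime (cc χ) p s)) ∘ ((↑) : Nat.Primes → ℕ)) =
        fun p : Nat.Primes => (1 - χ ((p : ℕ) : ZMod N) * ((p : ℕ) : ℂ) ^ (-(s - 1 / 2)))⁻¹ *
          (1 - χ⁻¹ ((p : ℕ) : ZMod N) * ((p : ℕ) : ℂ) ^ (-(s - 1 / 2)))⁻¹ := by
      funext p
      simp only [Function.comp_apply]
      exact (LLdir χ p.2 (by linarith)).2
    rw [e]
    exact h1
  exact (Function.Injective.hasProd_iff Subtype.val_injective (fun x hx => by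
    by_contra h
    exact hx (hsupp h))).1 h3

omit [NeZero N] in
/-- the value at `s = 1` -/
lemma ellDir {p : ℕ} (hp : p.Prime) : ellc Nat.Prime (cc χ) p =
    2 * Real.log ‖1 - χ (p : ZMod N) / (Real.sqrt p : ℂ)‖ := by
  have hpc : (p : ℂ) ≠ 0 := by exact_mod_cast hp.ne_zero
  have hp1 : (1 : ℝ) < p := by exact_mod_cast hp.one_lt
  have hp0 : (0 : ℝ) < p := by linarith
  have h1 := (LLdir χ hp (s := 1) (by norm_num)).2
  have h2 : LLc Nat.Prime (cc χ) p 1 = ((-ellc Nat.Prime (cc χ) p : ℝ) : ℂ) := by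
    unfold LLc ellc
    rw [if_pos hp, if_pos hp, neg_neg, Complex.ofReal_tsum]
    refine tsum_congr fun m => ?_
    push_cast
    rw [Complex.ofReal_cpow hp0.le]
    push_cast
    rw [mul_one]
  have h3 : (p : ℂ) ^ (-((1 : ℂ) - 1 / 2)) = ((Real.sqrt p : ℝ) : ℂ)⁻¹ := by
    rw [Complex.cpow_neg, Real.sqrt_eq_rpow, Complex.ofReal_cpow hp0.le]
    congr 2
    all_goals norm_num
  rw [h2, h3, ← Complex.ofReal_exp, inv_val] at h1
  set u : ℂ := χ (p : ZMod N) * ((Real.sqrt p : ℝ) : ℂ)⁻¹ with hu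
  have h4 : starRingEnd ℂ (χ (p : ZMod N)) * ((Real.sqrt p : ℝ) : ℂ)⁻¹ = starRingEnd ℂ u := by
    rw [hu, map_mul, map_inv₀, Complex.conj_ofReal]
  rw [h4] at h1
  have h5 : (1 - u)⁻¹ * (1 - starRingEnd ℂ u)⁻¹ = ((‖1 - u‖ ^ 2)⁻¹ : ℝ) := by
    rw [← mul_inv]
    have h6 : (1 - u) * (1 - starRingEnd ℂ u) = ((‖1 - u‖ ^ 2 : ℝ) : ℂ) := by
      have h7 : (1 - starRingEnd ℂ u) = starRingEnd ℂ (1 - u) := by simp
      rw [h7, Complex.mul_conj, Complex.normSq_eq_norm_sq]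
    rw [h6]
    push_cast
    rfl
  rw [h5] at h1
  have h8 : Real.exp (-ellc Nat.Prime (cc χ) p) = (‖1 - u‖ ^ 2)⁻¹ := by exact_mod_cast h1
  have h9 := congrArg Real.log h8
  rw [Real.log_exp, Real.log_inv, Real.log_pow] at h9
  have h10 : 1 - χ (p : ZMod N) / (Real.sqrt p : ℂ) = 1 - u := by rw [hu, div_eq_mul_inv]
  rw [h10]
  push_cast at h9
  linarith

end Pool.Agent.H234R4.DRH
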