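import Pool.Agent.H234R4.DRH.Conv3
import Pool.Agent.H234R4.DRH.Dir

/-! The equivalence for Dirichlet characters. -/

set_option autoImplicit false

open Complex Filter Topology Finset

namespace Pool.Agent.H234R4.DRH

open Pool.Agent.H438R3.BSD Pool.Agent.H438R3.BSD.Gen Pool.Agent.H814R3.BSD

/-- the absolute value of the partial Euler product at `1/2` -/
noncomputable def EPD {N : ℕ} (χ : DirichletCharacter ℂ N) (x : ℕ) : ℝ :=
  ∏ p ∈ (Finset.Icc 1 x).filter Nat.Prime, ‖1 - χ (p : ZMod N) / (Real.sqrt p : ℂ)‖⁻¹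

/-- the logarithmic mean of `log EPD + κ log log` -/
noncomputable def LMD {N : ℕ} (χ : DirichletCharacter ℂ N) (κ : ℝ) (x : ℕ) : ℝ :=
  (∑ n ∈ Finset.Icc 2 x, (Real.log (EPD χ n) + κ * Real.log (Real.log n)) / n) / Real.log x

variable {N : ℕ} [NeZero N] (χ : DirichletCharacter ℂ N)

omit [NeZero N] in
lemma fac_ne {p : ℕ} (hp : p.Prime) : ‖1 - χ (p : ZMod N) / (Real.sqrt p : ℂ)‖ ≠ 0 := by
  rw [norm_ne_zero_iff]
  intro h0
  have h1 : χ (p : ZMod N) / (Real.sqrt p : ℂ) = 1 := by linear_combination -h0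
  have h2 : ‖χ (p : ZMod N) / (Real.sqrt p : ℂ)‖ = 1 := by rw [h1, norm_one]
  rw [norm_div, Complex.norm_real, Real.norm_of_nonneg (Real.sqrt_nonneg _)] at h2
  have h3 : 1 < Real.sqrt p := by
    rw [Real.lt_sqrt (by norm_num)]
    have : (1 : ℝ) < p := by exact_mod_cast hp.one_lt
    simpa using this
  have h4 : ‖χ (p : ZMod N)‖ ≤ 1 := χ.norm_le_one _
  rw [div_eq_iff (by linarith)] at h2
  linarith

omit [NeZero N] in
lemma log_EPD (n : ℕ) : Real.log (EPD χ n) = -(1 / 2) * lE (ellc Nat.Prime (cc χ)) n := by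
  unfold EPD lE
  rw [Real.log_prod (fun p hp => inv_ne_zero (fac_ne χ (Finset.mem_filter.1 hp).2)),
    Finset.sum_filter, Finset.mul_sum]
  refine Finset.sum_congr rfl fun p _ => ?_
  by_cases hp : p.Prime
  · rw [if_pos hp, ellDir χ hp, Real.log_inv]
    ring
  · rw [if_neg hp]
    unfold ellc
    rw [if_neg hp]
    simp

omit [NeZero N] in
lemma LM_eq (κ : ℝ) (x : ℕ) : LMD χ κ x = -(1 / 2) * Gen.LA (lE (ellc Nat.Prime (cc χ))) (2 * κ) x := by
  unfold LMD Gen.LA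
  rw [mul_div_assoc']
  congr 1
  rw [Finset.mul_sum]
  refine Finset.sum_congr rfl fun n _ => ?_
  rw [log_EPD]
  ring

lemma FF_diff (h1 : χ ≠ 1) : Differentiable ℂ (FF χ) := by
  have h2 : χ⁻¹ ≠ 1 := by rwa [ne_eq, inv_eq_one]
  unfold FF
  exact ((DirichletCharacter.differentiable_LFunction h1).comp (by fun_prop)).mul
    ((DirichletCharacter.differentiable_LFunction h2).comp (by fun_prop))

lemma growFF (hG : TaskGrow) (h1 : χ ≠ 1) :
    ∃ C K : ℝ, ∀ s : ℂ, 1 ≤ s.re → ‖FF χ s‖ ≤ C * (1 + ‖s‖) ^ K := by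
  have h2 : χ⁻¹ ≠ 1 := by rwa [ne_eq, inv_eq_one]
  have key : ∀ ψ : DirichletCharacter ℂ N, ψ ≠ 1 → ∃ C K : ℝ, 0 ≤ C ∧ 0 ≤ K ∧
      ∀ s : ℂ, 1 ≤ s.re → ‖ψ.LFunction (s - 1 / 2)‖ ≤ C * (1 + ‖s‖) ^ K := by
    intro ψ hψ
    obtain ⟨C, K, h3⟩ := hG N ψ hψ
    refine ⟨|C| * 2 ^ |K|, |K|, by positivity, abs_nonneg _, fun s hs => ?_⟩
    have h4 := h3 (s - 1 / 2) (by simp; linarith)
    have hb1 : (1 : ℝ) ≤ 1 + ‖s - 1 / 2‖ := by have := norm_nonneg (s - 1 / 2); linarith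
    have hb2 : 1 + ‖s - 1 / 2‖ ≤ 2 * (1 + ‖s‖) := by
      have h5 := norm_sub_le s (1 / 2 : ℂ)
      have h6 : ‖(1 / 2 : ℂ)‖ = 1 / 2 := by norm_num
      have := norm_nonneg s
      linarith
    have hs0 := norm_nonneg s
    refine h4.trans ?_
    calc C * (1 + ‖s - 1 / 2‖) ^ K ≤ |C| * (1 + ‖s - 1 / 2‖) ^ |K| := by
          refine mul_le_mul (le_abs_self C) (Real.rpow_le_rpow_of_exponent_le hb1 (le_abs_self K))
            (by positivity) (abs_nonneg _)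
      _ ≤ |C| * (2 * (1 + ‖s‖)) ^ |K| :=
          mul_le_mul_of_nonneg_left (Real.rpow_le_rpow (by linarith) hb2 (abs_nonneg K))
            (abs_nonneg _)
      _ = _ := by rw [Real.mul_rpow (by norm_num) (by positivity)]; ring
  obtain ⟨C1, K1, hC1, hK1, h3⟩ := key χ h1
  obtain ⟨C2, K2, hC2, hK2, h4⟩ := key χ⁻¹ h2
  refine ⟨C1 * C2, K1 + K2, fun s hs => ?_⟩
  unfold FF
  rw [norm_mul]
  have hs0 := norm_nonneg s
  calc ‖χ.LFunction (s - 1 / 2)‖ * ‖χ⁻¹.LFunction (s - 1 / 2)‖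
      ≤ (C1 * (1 + ‖s‖) ^ K1) * (C2 * (1 + ‖s‖) ^ K2) :=
        mul_le_mul (h3 s hs) (h4 s hs) (norm_nonneg _) (by positivity)
    _ = _ := by rw [Real.rpow_add (by linarith)]; ring

/-- the leading term of `FF` -/
lemma leadFF (hC : TaskConj) (hLd : TaskLead) (h1 : χ ≠ 1) (m : ℕ)
    (hm : analyticOrderAt χ.LFunction (1 / 2) = m) :
    Tendsto (fun w : ℂ => Real.log ‖FF χ (1 + w)‖ - (2 * m : ℕ) * Real.log ‖w‖) (𝓝[≠] 0)
      (𝓝 (2 * Real.log (‖iteratedDeriv m χ.LFunction (1 / 2)‖ / m.factorial))) := by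
  have ha : AnalyticAt ℂ χ.LFunction (1 / 2) :=
    (DirichletCharacter.differentiable_LFunction h1).analyticAt _
  obtain ⟨h2, h3⟩ := hLd χ.LFunction (1 / 2) m ha hm
  have hnz : ∀ᶠ w : ℂ in 𝓝[≠] 0, χ.LFunction (1 / 2 + w) ≠ 0 := by
    have h4 : ∀ᶠ z in 𝓝[≠] (1 / 2 : ℂ), χ.LFunction z ≠ 0 := by
      rcases ha.eventually_eq_zero_or_eventually_ne_zero with h5 | h5
      · have h6 := analyticOrderAt_eq_top.2 h5
        rw [hm] at h6
        exact absurd h6 (ENat.natCast_ne_top m)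
      · exact h5
    have h5 : Tendsto (fun w : ℂ => (1 / 2 : ℂ) + w) (𝓝[≠] 0) (𝓝[≠] (1 / 2)) := by
      refine tendsto_nhdsWithin_iff.2 ⟨?_, ?_⟩
      · have : ContinuousAt (fun w : ℂ => (1 / 2 : ℂ) + w) 0 := by fun_prop
        have h6 := this.tendsto
        simp only [add_zero] at h6
        exact h6.mono_left nhdsWithin_le_nhds
      · filter_upwards [self_mem_nhdsWithin] with w hw
        simpa using hw
    exact h5.eventually h4
  have hconj : Tendsto (fun w : ℂ => starRingEnd ℂ w) (𝓝[≠] 0) (𝓝[≠] 0) := by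
    refine tendsto_nhdsWithin_iff.2 ⟨?_, ?_⟩
    · have : ContinuousAt (fun w : ℂ => starRingEnd ℂ w) 0 := Complex.continuous_conj.continuousAt
      have h6 := this.tendsto
      simp only [map_zero] at h6
      exact h6.mono_left nhdsWithin_le_nhds
    · filter_upwards [self_mem_nhdsWithin] with w hw
      simpa using hw
  have h4 := h3.add (h3.comp hconj)
  have e : Real.log (‖iteratedDeriv m χ.LFunction (1 / 2)‖ / m.factorial) +
      Real.log (‖iteratedDeriv m χ.LFunction (1 / 2)‖ / m.factorial) =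
      2 * Real.log (‖iteratedDeriv m χ.LFunction (1 / 2)‖ / m.factorial) := by ring
  rw [e] at h4
  refine Tendsto.congr' ?_ h4
  filter_upwards [hnz, hconj.eventually hnz] with w hw1 hw2
  simp only [Function.comp_apply]
  unfold FF
  have e1 : (1 : ℂ) + w - 1 / 2 = 1 / 2 + w := by ring
  have e2 : starRingEnd ℂ (1 / 2 + w) = 1 / 2 + starRingEnd ℂ w := by
    rw [map_add]
    congr 1
    rw [map_div₀, map_one, map_ofNat]
  rw [e1, hC N χ h1 (1 / 2 + w), e2, norm_mul, RCLike.norm_conj, Real.log_mul, RCLike.norm_conj]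
  · push_cast
    ring
  · exact norm_ne_zero_iff.2 hw1
  · exact norm_ne_zero_iff.2 ((map_ne_zero (starRingEnd ℂ)).2 hw2)

lemma log_norm_tendsto : Tendsto (fun w : ℂ => Real.log ‖w‖) (𝓝[≠] 0) atBot := by
  have h1 : Tendsto (fun w : ℂ => ‖w‖) (𝓝[≠] 0) (𝓝[>] 0) := tendsto_norm_nhdsNE_zero
  exact Real.tendsto_log_nhdsGT_zero.comp h1

lemma order_unique {f : ℂ → ℝ} {a b : ℕ} {u v : ℝ}
    (h1 : Tendsto (fun w : ℂ => f w - a * Real.log ‖w‖) (𝓝[≠] 0) (𝓝 u))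
    (h2 : Tendsto (fun w : ℂ => f w - b * Real.log ‖w‖) (𝓝[≠] 0) (𝓝 v)) : a = b := by
  by_contra hab
  have h3 := h1.sub h2
  have h4 : Tendsto (fun w : ℂ => ((b : ℝ) - a) * Real.log ‖w‖) (𝓝[≠] 0) (𝓝 (u - v)) := by
    refine h3.congr fun w => ?_
    ring
  have hne : ((b : ℝ) - a) ≠ 0 := by
    intro h0
    apply hab
    have : (b : ℝ) = a := by linarith
    exact_mod_cast this.symm
  have h5 : Tendsto (fun w : ℂ => Real.log ‖w‖) (𝓝[≠] 0) (𝓝 ((u - v) / ((b : ℝ) - a))) := by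
    have h6 := h4.div_const ((b : ℝ) - a)
    refine h6.congr fun w => ?_
    field_simp
  exact not_tendsto_nhds_of_tendsto_atBot log_norm_tendsto _ h5

end Pool.Agent.H234R4.DRH
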