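import Pool.Agent.H234R4.DRH.Fin

/-! The equivalence for Dirichlet characters: the main theorem. -/

set_option autoImplicit false

open Complex Filter Topology Finset

namespace Pool.Agent.H234R4.DRH

open Pool.Agent.H438R3.BSD Pool.Agent.H438R3.BSD.Gen Pool.Agent.H814R3.BSD

variable {N : ℕ} [NeZero N] (χ : DirichletCharacter ℂ N)

lemma ell_term_nonneg (n : ℕ) (hn : 3 ≤ n) : 0 ≤ Real.log (Real.log n) / n := by
  have h3 : (3 : ℝ) ≤ n := by exact_mod_cast hn
  have h1 : 1 ≤ Real.log n := by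
    rw [Real.le_log_iff_exp_le (by linarith)]
    have := Real.exp_one_lt_d9
    linarith
  have := Real.log_nonneg h1
  positivity

/-- the logarithmic mean of `log log` is bounded below -/
lemma meanll (x : ℕ) (hx : 3 ≤ x) :
    -|Real.log (Real.log 2)| ≤ (∑ n ∈ Finset.Icc 2 x, Real.log (Real.log n) / n) / Real.log x := by
  have h3 : (3 : ℝ) ≤ x := by exact_mod_cast hx
  have h1 : 1 ≤ Real.log x := by
    rw [Real.le_log_iff_exp_le (by linarith)]
    have := Real.exp_one_lt_d9
    linarith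
  rw [le_div_iff₀ (by linarith)]
  have h2 : Finset.Icc 2 x = insert 2 (Finset.Icc 3 x) := by
    ext k
    simp only [Finset.mem_Icc, Finset.mem_insert]
    omega
  rw [h2, Finset.sum_insert (by simp)]
  have h4 : 0 ≤ ∑ n ∈ Finset.Icc 3 x, Real.log (Real.log n) / n :=
    Finset.sum_nonneg fun n hn => ell_term_nonneg n (Finset.mem_Icc.1 hn).1
  have h5 : -|Real.log (Real.log 2)| ≤ Real.log (Real.log ((2 : ℕ) : ℝ)) / ((2 : ℕ) : ℝ) := by
    push_cast
    have h6 := neg_abs_le (Real.log (Real.log 2))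
    have h7 := abs_nonneg (Real.log (Real.log 2))
    rw [le_div_iff₀ (by norm_num)]
    linarith
  have h8 := abs_nonneg (Real.log (Real.log 2))
  nlinarith

lemma LM_split (κ κ' : ℝ) (x : ℕ) : LMD χ κ x = LMD χ κ' x +
    (κ - κ') * ((∑ n ∈ Finset.Icc 2 x, Real.log (Real.log n) / n) / Real.log x) := by
  unfold LMD
  rw [mul_div_assoc', ← add_div]
  congr 1
  rw [Finset.mul_sum, ← Finset.sum_add_distrib]
  refine Finset.sum_congr rfl fun n _ => ?_
  ring

open Classical in
theorem final (hP : TaskPerron) (hBC : TaskBC) (hPois : TaskPois) (hZ : TaskZ) (hZ0 : TaskZ0)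
    (hLim : TaskLim) (hAvg : TaskAvg) (hAvg2 : TaskAvg2) (hE : TaskEulerG) (hG : TaskGrow)
    (hDD : TaskLimDD) (hC : TaskConj) (hLd : TaskLead) (h1 : χ ≠ 1) :
    ∃ m : ℕ, analyticOrderAt χ.LFunction (1 / 2) = m ∧
      (∀ κ : ℝ, (∃ C : ℝ, ∀ᶠ x : ℕ in atTop, C ≤ LMD χ κ x) ↔
        ((∀ s : ℂ, 1 / 2 < s.re → χ.LFunction s ≠ 0) ∧ (m : ℝ) ≤ κ)) ∧
      ((∀ s : ℂ, 1 / 2 < s.re → χ.LFunction s ≠ 0) →
        Tendsto (fun x : ℕ => LMD χ m x) atTop (𝓝 (
          Real.log (‖iteratedDeriv m χ.LFunction (1 / 2)‖ / m.factorial) -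
          m * Real.eulerMascheroniConstant + if χ ^ 2 = 1 then Real.log 2 / 2 else 0))) := by
  have hloc := locDir χ
  have hFF := FF_diff χ h1
  have hprod := fun s hs => prodDir χ s hs
  obtain ⟨M, hM, hA, -⟩ := Gen.main hloc hFF hprod (lE (ellc Nat.Prime (cc χ))) 0
    (fun n => by simp)
  -- the order
  have hord : ∃ m : ℕ, analyticOrderAt χ.LFunction (1 / 2) = m := by
    have hne : analyticOrderAt χ.LFunction (1 / 2) ≠ ⊤ := by
      intro htop
      have h2 := analyticOrderAt_eq_top.1 htop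
      have ht : Tendsto (fun s : ℂ => s - 1 / 2) (𝓝 1) (𝓝 (1 / 2)) := by
        have : ContinuousAt (fun s : ℂ => s - 1 / 2) 1 := by fun_prop
        have h3 := this.tendsto
        norm_num at h3
        exact h3
      have h3 := ht.eventually h2
      have h4 : ∀ᶠ s in 𝓝 (1 : ℂ), FF χ s = 0 := by
        filter_upwards [h3] with s hs
        unfold FF
        rw [hs, zero_mul]
      have h5 := analyticOrderAt_eq_top.2 h4
      rw [hM] at h5
      exact ENat.natCast_ne_top M h5
    exact ⟨(analyticOrderAt χ.LFunction (1 / 2)).toNat, (ENat.natCast_toNat hne).symm⟩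
  obtain ⟨m, hm⟩ := hord
  have hlead := leadFF χ hC hLd h1 m hm
  have hM2 : M = 2 * m := by
    obtain ⟨-, h3⟩ := hLd (FF χ) 1 M (hFF.analyticAt 1) hM
    exact order_unique h3 hlead
  -- the convergence
  have hconv : (∀ s : ℂ, 1 / 2 < s.re → χ.LFunction s ≠ 0) →
        Tendsto (fun x : ℕ => LMD χ m x) atTop (𝓝 (
          Real.log (‖iteratedDeriv m χ.LFunction (1 / 2)‖ / m.factorial) -
          m * Real.eulerMascheroniConstant + if χ ^ 2 = 1 then Real.log 2 / 2 else 0)) := by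
    intro hnz
    have hnz' : ∀ s : ℂ, 1 < s.re → FF χ s ≠ 0 := by
      intro s hs
      unfold FF
      refine mul_ne_zero (hnz _ (by simp; linarith)) ?_
      rw [hC N χ h1]
      refine (map_ne_zero (starRingEnd ℂ)).2 (hnz _ ?_)
      rw [Complex.conj_re]
      simp; linarith
    have h3 := converse hP hBC hPois hZ hZ0 hLim hAvg hAvg2 hE hloc hFF hprod hnz'
      (growFF χ hG h1) (2 * m) _ _ hlead (hDD N χ)
    have h4 := h3.const_mul (-(1 / 2) : ℝ)
    have e : (-(1 / 2) : ℝ) * (-(2 * Real.log (‖iteratedDeriv m χ.LFunction (1 / 2)‖ / m.factorial)) +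
        ((2 * m : ℕ) : ℝ) * Real.eulerMascheroniConstant +
        if χ ^ 2 = 1 then -Real.log 2 else 0) =
        Real.log (‖iteratedDeriv m χ.LFunction (1 / 2)‖ / m.factorial) -
          m * Real.eulerMascheroniConstant + if χ ^ 2 = 1 then Real.log 2 / 2 else 0 := by
      push_cast
      split_ifs <;> ring
    rw [e] at h4
    refine h4.congr fun x => ?_
    rw [LM_eq]
    push_cast
    rfl
  refine ⟨m, hm, fun κ => ⟨?_, ?_⟩, hconv⟩
  · rintro ⟨C, hC'⟩
    have hno : ¬ (2 * κ < M ∨ ∃ ρ : ℂ, 1 < ρ.re ∧ FF χ ρ = 0) := by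
      intro h
      have h3 := (hA (2 * κ) h (-2 * C)).1
      apply h3
      filter_upwards [hC'] with x hx
      rw [LM_eq] at hx
      rw [not_lt]
      linarith
    push Not at hno
    obtain ⟨h3, h4⟩ := hno
    refine ⟨fun s hs h0 => ?_, ?_⟩
    · apply h4 (s + 1 / 2) (by simp; linarith)
      unfold FF
      rw [add_sub_cancel_right, h0, zero_mul]
    · rw [hM2] at h3
      push_cast at h3
      linarith
  · rintro ⟨hnz, hκ⟩
    have h3 := hconv hnz
    set ℓ := Real.log (‖iteratedDeriv m χ.LFunction (1 / 2)‖ / m.factorial) -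
          m * Real.eulerMascheroniConstant + if χ ^ 2 = 1 then Real.log 2 / 2 else 0 with hℓ
    refine ⟨(ℓ - 1) - (κ - m) * |Real.log (Real.log 2)|, ?_⟩
    filter_upwards [h3.eventually (lt_mem_nhds (show ℓ - 1 < ℓ by linarith)),
      eventually_ge_atTop 3] with x hx1 hx2
    rw [LM_split χ κ m x]
    have h4 := meanll x hx2
    have h5 : 0 ≤ κ - m := by linarith
    nlinarith [mul_le_mul_of_nonneg_left h4 h5]

end Pool.Agent.H234R4.DRH
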